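import Mathlib

set_option autoImplicit false

namespace Pool.Agent.H.MP_f3ccbb_lc

open Finset
open scoped ENNReal

/-- an expectation functional on a finite type -/
def IsExp {α : Type} [Fintype α] (E : (α → ℝ) → ℝ) : Prop :=
  ∃ w : α → ℝ, (∀ a, 0 ≤ w a) ∧ ∑ a, w a = 1 ∧ ∀ f, E f = ∑ a, w a * f a

noncomputable def avg {β : Type} (s : Finset β) (g : β → ℝ) : ℝ := (∑ b ∈ s, g b) / s.card

section exp
variable {α : Type} [Fintype α]

lemma IsExp.pure (a : α) : IsExp (fun f : α → ℝ => f a) := by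
  classical
  refine ⟨fun b => if b = a then 1 else 0, fun b => by dsimp only; split_ifs <;> norm_num,
    by simp, fun f => by simp⟩

lemma IsExp.avg {β : Type} {s : Finset β} (hs : s.Nonempty) (φ : β → α) :
    IsExp (fun f : α → ℝ => avg s (fun b => f (φ b))) := by
  classical
  have hc : (0 : ℝ) < s.card := by exact_mod_cast card_pos.2 hs
  refine ⟨fun a => (∑ b ∈ s, if φ b = a then (1 : ℝ) else 0) / s.card, fun a => ?_, ?_, fun f => ?_⟩
  · exact div_nonneg (sum_nonneg fun b _ => by split_ifs <;> norm_num) hc.le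
  · rw [← sum_div, sum_comm]
    simp [hc.ne']
  · simp only [MP_f3ccbb_lc.avg, div_mul_eq_mul_div, ← sum_div, sum_mul]
    rw [sum_comm]
    simp

lemma IsExp.mix {r : ℝ} (h0 : 0 ≤ r) (h1 : r ≤ 1) {E1 E2 : (α → ℝ) → ℝ} (e1 : IsExp E1)
    (e2 : IsExp E2) : IsExp (fun f => r * E1 f + (1 - r) * E2 f) := by
  obtain ⟨w1, a1, b1, c1⟩ := e1
  obtain ⟨w2, a2, b2, c2⟩ := e2
  refine ⟨fun a => r * w1 a + (1 - r) * w2 a, fun a => ?_, ?_, fun f => ?_⟩
  · have := a1 a; have := a2 a; have : 0 ≤ 1 - r := by linarith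
    positivity
  · rw [sum_add_distrib, ← mul_sum, ← mul_sum, b1, b2]; ring
  · simp only [c1, c2, mul_sum, ← sum_add_distrib]
    exact sum_congr rfl fun a _ => by ring

lemma IsExp.le_const {E : (α → ℝ) → ℝ} (e : IsExp E) {f : α → ℝ} {c : ℝ} (h : ∀ a, f a ≤ c) :
    E f ≤ c := by
  obtain ⟨w, a, b, d⟩ := e
  rw [d]
  calc ∑ x, w x * f x ≤ ∑ x, w x * c := sum_le_sum fun x _ => mul_le_mul_of_nonneg_left (h x) (a x)
    _ = c := by rw [← sum_mul, b, one_mul]

lemma IsExp.nonneg {E : (α → ℝ) → ℝ} (e : IsExp E) {f : α → ℝ} (h : ∀ a, 0 ≤ f a) :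
    0 ≤ E f := by
  obtain ⟨w, a, b, d⟩ := e
  rw [d]
  exact sum_nonneg fun x _ => mul_nonneg (a x) (h x)

lemma IsExp.comp {α' : Type} [Fintype α'] {E : (α → ℝ) → ℝ} (e : IsExp E) (φ : α → α') :
    IsExp (fun f : α' → ℝ => E (fun a => f (φ a))) := by
  classical
  obtain ⟨w, a, b, d⟩ := e
  refine ⟨fun y => ∑ x, if φ x = y then w x else 0, fun y => ?_, ?_, fun f => ?_⟩
  · exact sum_nonneg fun x _ => by split_ifs; exacts [a x, le_rfl]
  · rw [sum_comm]; simpa using b
  · simp only [d, sum_mul]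
    rw [sum_comm]
    simp

end exp

lemma avg_le {β : Type} {s : Finset β} (hs : s.Nonempty) {g : β → ℝ} {c : ℝ}
    (h : ∀ b ∈ s, g b ≤ c) : avg s g ≤ c := by
  have hc : (0 : ℝ) < s.card := by exact_mod_cast card_pos.2 hs
  rw [avg, div_le_iff₀ hc]
  calc ∑ b ∈ s, g b ≤ ∑ _b ∈ s, c := sum_le_sum h
    _ = c * s.card := by simp [mul_comm]

lemma avg_le_one {β : Type} {s : Finset β} {g : β → ℝ} {c D : ℝ} {b0 : β} (hb : b0 ∈ s)
    (h : ∀ b ∈ s, g b ≤ c) (h0 : g b0 ≤ c - D) : avg s g ≤ c - D / s.card := by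
  classical
  have hc : (0 : ℝ) < s.card := by exact_mod_cast card_pos.2 ⟨b0, hb⟩
  rw [avg, div_le_iff₀ hc]
  calc ∑ b ∈ s, g b ≤ ∑ b ∈ s, (c - if b = b0 then D else 0) := by
        refine sum_le_sum fun b hb' => ?_
        split_ifs with h1
        · exact h1 ▸ h0
        · simpa using h b hb'
    _ = (c - D / s.card) * s.card := by
        rw [sum_sub_distrib, sum_ite_eq' s b0, if_pos hb]
        simp
        field_simp

lemma avg_le_add {β : Type} [DecidableEq β] {s t : Finset β} (hs : s.Nonempty) {g : β → ℝ}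
    {c D : ℝ} (hD : 0 ≤ D) (h : ∀ b ∈ s, b ∉ t → g b ≤ c) (h0 : ∀ b ∈ s, b ∈ t → g b ≤ c + D) :
    avg s g ≤ c + t.card * D / s.card := by
  have hc : (0 : ℝ) < s.card := by exact_mod_cast card_pos.2 hs
  rw [avg, div_le_iff₀ hc]
  calc ∑ b ∈ s, g b ≤ ∑ b ∈ s, (c + if b ∈ t then D else 0) := by
        refine sum_le_sum fun b hb' => ?_
        split_ifs with h1
        · exact h0 b hb' h1
        · simpa using h b hb' h1
    _ ≤ (c + t.card * D / s.card) * s.card := by
        rw [sum_add_distrib, ← sum_filter, sum_const, sum_const, nsmul_eq_mul, nsmul_eq_mul]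
        have : ((s.filter (· ∈ t)).card : ℝ) ≤ t.card := by
          exact_mod_cast card_le_card (fun b hb => (mem_filter.1 hb).2)
        have h2 : (c + t.card * D / s.card) * s.card = s.card * c + t.card * D := by
          field_simp
        rw [h2]
        nlinarith

section chain
variable {ι : Type} [Fintype ι] [DecidableEq ι]

def dist (z x : ι → Bool) : ℕ := (univ.filter (fun j => x j ≠ z j)).card

def nxt (z x y : ι → Bool) : ι → Bool := if dist z y ≤ dist z x then y else x

noncomputable def H (St : (ι → Bool) → ((ι → Bool) → ℝ) → ℝ) (z : ι → Bool) :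
    ℕ → (ι → Bool) → ℝ
  | 0, _ => 0
  | m + 1, x => if x = z then 0 else 1 + St x (fun y => H St z m (nxt z x y))

lemma H_nonneg {St : (ι → Bool) → ((ι → Bool) → ℝ) → ℝ} (hS : ∀ x, IsExp (St x)) (z : ι → Bool) :
    ∀ m x, 0 ≤ H St z m x := by
  intro m
  induction m with
  | zero => intro x; exact le_rfl
  | succ m ih =>
    intro x
    rw [H]
    split_ifs
    · exact le_rfl
    · have := (hS x).nonneg (f := fun y => H St z m (nxt z x y)) (fun y => ih _)
      linarith

lemma H_self (St : (ι → Bool) → ((ι → Bool) → ℝ) → ℝ) (z : ι → Bool) (m : ℕ) : H St z m z = 0 := by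
  cases m <;> simp [H]

lemma dist_eq_zero {z x : ι → Bool} (h : dist z x = 0) : x = z := by
  rw [dist, card_eq_zero, filter_eq_empty_iff] at h
  funext j
  simpa using h (mem_univ j)

lemma nxt_self (z y : ι → Bool) : nxt z z y = z := by
  rw [nxt]
  split_ifs with h
  · have : dist z z = 0 := by simp [dist]
    exact dist_eq_zero (by omega)
  · rfl

def UB (ι : Type) [Fintype ι] [DecidableEq ι] (B : ℝ) : Prop :=
  ∃ (E0 : ((ι → Bool) → ℝ) → ℝ) (St : (ι → Bool) → ((ι → Bool) → ℝ) → ℝ), IsExp E0 ∧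
    (∀ x, IsExp (St x)) ∧ ∀ z m, E0 (H St z m) ≤ B

lemma UB.transfer {κ : Type} [Fintype κ] [DecidableEq κ] (e : ι ≃ κ) {B : ℝ} (h : UB ι B) :
    UB κ B := by
  obtain ⟨E0, St, h0, hS, hB⟩ := h
  have hd : ∀ z x : κ → Bool, dist (z ∘ e) (x ∘ e) = dist z x := by
    intro z x
    unfold dist
    exact card_equiv e (by simp)
  refine ⟨fun f => E0 (fun a => f (a ∘ e.symm)), fun x f => St (x ∘ e) (fun a => f (a ∘ e.symm)),
    h0.comp _, fun x => (hS _).comp _, fun z m => ?_⟩
  have key : ∀ m x, H (fun x f => St (x ∘ e) (fun a => f (a ∘ e.symm))) z m x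
      = H St (z ∘ e) m (x ∘ e) := by
    intro m
    induction m with
    | zero => intro x; rfl
    | succ m ih =>
      intro x
      have h1 : x ∘ e = z ∘ e ↔ x = z := by
        constructor
        · intro h; funext j; simpa using congrFun h (e.symm j)
        · rintro rfl; rfl
      simp only [H, h1, ih]
      split_ifs
      · rfl
      · congr 2
        funext y
        congr 1
        have h2 : dist z (y ∘ e.symm) = dist (z ∘ e) y := by
          rw [← hd]; congr 1; funext j; simp
        simp only [nxt, h2, hd]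
        split_ifs
        · funext j; simp
        · rfl
  have := hB (z ∘ e) m
  convert this using 2
  funext a
  rw [key]
  congr 1
  funext j; simp

end chain

section pmf
variable {n : ℕ}

/-- one round of the elitist chain -/
noncomputable def Tr (step : (Fin n → Bool) → PMF ((Fin n → Bool) × Bool)) (z : Fin n → Bool) :
    PMF (Fin n → Bool) → PMF (Fin n → Bool) :=
  fun p : PMF (Fin n → Bool) => p.bind (fun x => (step x).bind (fun yb =>
    PMF.pure (if (Finset.univ.filter (fun i => x i = z i)).card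
          < (Finset.univ.filter (fun i => yb.1 i = z i)).card
        ∨ ((Finset.univ.filter (fun i => x i = z i)).card
          = (Finset.univ.filter (fun i => yb.1 i = z i)).card ∧ yb.2 = true)
      then yb.1 else x)))

lemma pmf_sum {α : Type} [Fintype α] (p : PMF α) : ∑ a, p a = 1 := by
  rw [← tsum_fintype (L := SummationFilter.unconditional α)]; exact p.tsum_coe

lemma bind_sum {α β : Type} [Fintype α] [Fintype β] (p : PMF α) (κ : α → PMF β) (f : β → ℝ≥0∞) :
    ∑ b, (p.bind κ) b * f b = ∑ a, p a * ∑ b, κ a b * f b := by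
  simp only [PMF.bind_apply, tsum_fintype, sum_mul, mul_sum]
  rw [sum_comm]
  simp only [mul_assoc]

lemma pure_sum {β : Type} [Fintype β] (a : β) (f : β → ℝ≥0∞) :
    ∑ b, (PMF.pure a) b * f b = f a := by
  classical
  simp [PMF.pure_apply]

lemma agree_add (z x : Fin n → Bool) :
    (Finset.univ.filter (fun i => x i = z i)).card + dist z x = n := by
  rw [dist]
  have := card_filter_add_card_filter_not (s := (univ : Finset (Fin n))) (fun i => x i = z i)
  simpa using this

theorem upper {B : ℝ} (h : UB (Fin n) B) : ∃ init : PMF (Fin n → Bool),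
    ∃ step : (Fin n → Bool) → PMF ((Fin n → Bool) × Bool), ∀ z : Fin n → Bool,
      1 + ∑' k : ℕ, (1 - (Nat.iterate (Tr step z) k init) z) ≤ ENNReal.ofReal (1 + B) := by
  classical
  obtain ⟨E0, St, ⟨w0, a0, b0, c0⟩, hS, hB⟩ := h
  have hS' := hS
  choose w a b c using hS'
  have mk : ∀ v : (Fin n → Bool) → ℝ, (∀ y, 0 ≤ v y) → ∑ y, v y = 1 →
      ∑ y, ENNReal.ofReal (v y) = 1 := by
    intro v h1 h2
    rw [← ENNReal.ofReal_sum_of_nonneg (fun y _ => h1 y), h2, ENNReal.ofReal_one]
  let pw : (Fin n → Bool) → PMF (Fin n → Bool) := fun x =>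
    PMF.ofFintype (fun y => ENNReal.ofReal (w x y)) (mk _ (a x) (b x))
  refine ⟨PMF.ofFintype (fun y => ENNReal.ofReal (w0 y)) (mk _ a0 b0),
    fun x => (pw x).bind (fun y => PMF.pure (y, true)), fun z => ?_⟩
  set T := Tr (fun x => (pw x).bind (fun y => PMF.pure (y, true))) z with hT
  have hstep : ∀ (p : PMF (Fin n → Bool)) (f : (Fin n → Bool) → ℝ), (∀ y, 0 ≤ f y) →
      ∑ y, T p y * ENNReal.ofReal (f y)
        = ∑ x, p x * ENNReal.ofReal (St x (fun y => f (nxt z x y))) := by
    intro p f hf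
    rw [hT, Tr, bind_sum]
    refine sum_congr rfl fun x _ => ?_
    congr 1
    rw [PMF.bind_bind, bind_sum, c x, ENNReal.ofReal_sum_of_nonneg
      (fun y _ => mul_nonneg (a x y) (hf _))]
    refine sum_congr rfl fun y _ => ?_
    rw [PMF.pure_bind, pure_sum, ENNReal.ofReal_mul (a x y)]
    congr 3
    have h1 := agree_add z x
    have h2 := agree_add z y
    simp only [nxt, and_true]
    congr 1
    apply propext
    omega
  have key : ∀ (m : ℕ) (p : PMF (Fin n → Bool)), ∑ k ∈ range m, (1 - (T^[k] p) z)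
      ≤ ∑ x, p x * ENNReal.ofReal (H St z m x) := by
    intro m
    induction m with
    | zero => intro p; simp
    | succ m ih =>
      intro p
      rw [sum_range_succ']
      simp only [Function.iterate_succ_apply, Function.iterate_zero_apply]
      have h1 : 1 - p z = ∑ x, p x * (if x = z then 0 else 1) := by
        have h2 := pmf_sum p
        rw [← add_sum_erase _ _ (mem_univ z)] at h2
        have h3 : 1 - p z = ∑ x ∈ univ.erase z, p x := by
          rw [← h2, ENNReal.add_sub_cancel_left (p.apply_ne_top z)]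
        rw [h3, ← add_sum_erase _ _ (mem_univ z)]
        simp only [if_true, mul_zero, zero_add]
        exact sum_congr rfl fun x hx => by rw [if_neg (ne_of_mem_erase hx), mul_one]
      refine (add_le_add (ih (T p)) h1.le).trans ?_
      rw [hstep p _ (H_nonneg hS z m), ← sum_add_distrib]
      refine sum_le_sum fun x _ => ?_
      rw [← mul_add]
      refine mul_le_mul_right ?_ _
      rw [H]
      split_ifs with hx
      · subst hx
        simp only [nxt_self, H_self]
        have : St x (fun _ => 0) = 0 := by rw [c x]; simp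
        simp [this]
      · rw [ENNReal.ofReal_add zero_le_one
          ((hS x).nonneg (fun y => H_nonneg hS z m _)), add_comm, ENNReal.ofReal_one]
  have hB0 : 0 ≤ B := le_trans (by rw [c0]; simp [H]) (hB z 0)
  rw [ENNReal.ofReal_add zero_le_one hB0, ENNReal.ofReal_one]
  refine add_le_add le_rfl ?_
  rw [ENNReal.tsum_eq_iSup_nat]
  refine iSup_le fun m => (key m _).trans ?_
  refine le_trans (le_of_eq ?_) (ENNReal.ofReal_le_ofReal (hB z m))
  rw [c0, ENNReal.ofReal_sum_of_nonneg (fun y _ => mul_nonneg (a0 y) (H_nonneg hS z m y))]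
  refine sum_congr rfl fun y _ => ?_
  rw [PMF.ofFintype_apply, ENNReal.ofReal_mul (a0 y)]

theorem lower (init : PMF (Fin n → Bool)) (step : (Fin n → Bool) → PMF ((Fin n → Bool) × Bool)) :
    ∃ z : Fin n → Bool, ENNReal.ofReal (1 / 2 * (n : ℝ)) ≤
      1 + ∑' k : ℕ, (1 - (Nat.iterate (Tr step z) k init) z) := by
  classical
  have dom : ∀ k : ℕ, ∃ μ : (Fin n → Bool) → ℝ≥0∞, ∑ y, μ y = 2 ^ k ∧
      ∀ z y, ((Tr step z)^[k] init) y ≤ μ y := by
    intro k
    induction k with
    | zero => exact ⟨init, by simpa using pmf_sum init, fun z y => le_rfl⟩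
    | succ k ih =>
      obtain ⟨μ, h1, h2⟩ := ih
      refine ⟨fun y => ∑ x, μ x * ∑ yb, step x yb *
        ((if y = yb.1 then 1 else 0) + (if y = x then 1 else 0)), ?_, fun z y => ?_⟩
      · rw [sum_comm]
        have : ∀ x, ∑ y, μ x * ∑ yb, step x yb *
            ((if y = yb.1 then (1 : ℝ≥0∞) else 0) + (if y = x then 1 else 0)) = μ x * 2 := by
          intro x
          rw [← mul_sum, sum_comm]
          simp only [← mul_sum, sum_add_distrib, sum_ite_eq', mem_univ, if_true]
          rw [← sum_mul, pmf_sum, one_mul, one_add_one_eq_two]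
        simp only [this]
        rw [← sum_mul, h1, pow_succ]
      · rw [Function.iterate_succ_apply', Tr, PMF.bind_apply, tsum_fintype]
        refine sum_le_sum fun x _ => mul_le_mul' (h2 z x) ?_
        rw [PMF.bind_apply, tsum_fintype]
        refine sum_le_sum fun yb _ => mul_le_mul_right ?_ _
        rw [PMF.pure_apply]
        split_ifs <;> simp_all
  have h1 : ∀ k ∈ range n, ∑ z, (((Tr step z)^[k] init) z).toReal ≤ (2 : ℝ) ^ n / 2 := by
    intro k hk
    obtain ⟨μ, h1, h2⟩ := dom k
    have h3 : ∑ z, ((Tr step z)^[k] init) z ≤ 2 ^ k := h1 ▸ sum_le_sum fun z _ => h2 z z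
    rw [← ENNReal.toReal_sum (fun z _ => PMF.apply_ne_top _ _)]
    have h4 := ENNReal.toReal_mono (by simp) h3
    have h5 : (2 : ℝ) ^ (k + 1) ≤ 2 ^ n := pow_le_pow_right₀ (by norm_num) (mem_range.1 hk)
    rw [pow_succ] at h5
    simp only [ENNReal.toReal_pow, ENNReal.toReal_ofNat] at h4
    linarith
  have h2 : ∑ z : Fin n → Bool, ∑ k ∈ range n, (((Tr step z)^[k] init) z).toReal
      ≤ ∑ _z : Fin n → Bool, (n : ℝ) / 2 := by
    rw [sum_comm]
    refine (sum_le_sum h1).trans (le_of_eq ?_)
    simp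
    ring
  obtain ⟨z, _, hz⟩ := exists_le_of_sum_le univ_nonempty h2
  refine ⟨z, le_trans ?_ le_add_self⟩
  refine le_trans ?_ (ENNReal.sum_le_tsum (range n))
  have h3 : ∀ k, 1 - ((Tr step z)^[k] init) z
      = ENNReal.ofReal (1 - (((Tr step z)^[k] init) z).toReal) := by
    intro k
    rw [ENNReal.ofReal_sub _ ENNReal.toReal_nonneg, ENNReal.ofReal_toReal (PMF.apply_ne_top _ _),
      ENNReal.ofReal_one]
  simp only [h3]
  rw [← ENNReal.ofReal_sum_of_nonneg]
  · refine ENNReal.ofReal_le_ofReal ?_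
    rw [sum_sub_distrib]
    simp only [sum_const, card_range, nsmul_eq_mul, mul_one]
    linarith
  · intro k _
    have := ENNReal.toReal_mono ENNReal.one_ne_top (PMF.coe_le_one ((Tr step z)^[k] init) z)
    simp only [ENNReal.toReal_one] at this
    linarith

end pmf

end Pool.Agent.H.MP_f3ccbb_lc
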