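import Pool.Agent.H.MP_f3ccbb_lc.A

set_option autoImplicit false

namespace Pool.Agent.H.MP_f3ccbb_lc

open Finset

section generic
variable {ι : Type} [Fintype ι] [DecidableEq ι]

def f1 (x : ι → Bool) (j : ι) : ι → Bool := Function.update x j (!x j)

def flip (x S : ι → Bool) : ι → Bool := fun j => xor (x j) (S j)

def cnt (z : ι → Bool) (s : Finset ι) (x : ι → Bool) : ℕ := (s.filter (fun j => x j ≠ z j)).card

def n1 (z x : ι → Bool) (j : ι) : ι → Bool := if x j = z j then x else f1 x j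

def gn (z x S : ι → Bool) (j : ι) : ℤ := if S j = true then (if x j = z j then -1 else 1) else 0

omit [Fintype ι] in
@[simp] lemma f1_self (x : ι → Bool) (j : ι) : f1 x j j = !x j := by simp [f1]

omit [Fintype ι] in
lemma f1_ne (x : ι → Bool) {i j : ι} (h : i ≠ j) : f1 x j i = x i := by simp [f1, h]

omit [Fintype ι] [DecidableEq ι] in
lemma cnt_congr (z : ι → Bool) {s : Finset ι} {x y : ι → Bool} (h : ∀ j ∈ s, x j = y j) :
    cnt z s x = cnt z s y := by
  unfold cnt
  congr 1
  exact filter_congr fun j hj => by rw [h j hj]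

omit [Fintype ι] [DecidableEq ι] in
lemma cnt_le (z : ι → Bool) (s : Finset ι) (x : ι → Bool) : cnt z s x ≤ s.card :=
  card_filter_le _ _

omit [Fintype ι] [DecidableEq ι] in
lemma cnt_pos {z : ι → Bool} {s : Finset ι} {x : ι → Bool} (h : 0 < cnt z s x) :
    ∃ j ∈ s, x j ≠ z j := by
  obtain ⟨j, hj⟩ := card_pos.1 h
  exact ⟨j, mem_filter.1 hj⟩

omit [Fintype ι] [DecidableEq ι] in
lemma cnt_zero {z : ι → Bool} {s : Finset ι} {x : ι → Bool} (h : cnt z s x = 0) :
    ∀ j ∈ s, x j = z j := by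
  intro j hj
  by_contra hne
  have : 0 < cnt z s x := card_pos.2 ⟨j, mem_filter.2 ⟨hj, hne⟩⟩
  omega

omit [Fintype ι] in
lemma cnt_f1_not {z : ι → Bool} {s : Finset ι} {x : ι → Bool} {j : ι} (h : j ∉ s) :
    cnt z s (f1 x j) = cnt z s x :=
  cnt_congr z fun i hi => f1_ne x (fun h' => h (h' ▸ hi))

omit [Fintype ι] in
lemma cnt_f1_wrong {z : ι → Bool} {s : Finset ι} {x : ι → Bool} {j : ι} (h : j ∈ s)
    (hw : x j ≠ z j) : cnt z s (f1 x j) + 1 = cnt z s x := by
  unfold cnt
  have : s.filter (fun i => f1 x j i ≠ z i) = (s.filter (fun i => x i ≠ z i)).erase j := by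
    ext i
    simp only [mem_filter, mem_erase]
    by_cases hi : i = j
    · subst hi
      simp only [f1_self, ne_eq, not_true_eq_false, false_and, iff_false, not_and, not_not]
      intro _
      revert hw; cases x i <;> cases z i <;> simp
    · rw [f1_ne x hi]; tauto
  rw [this, card_erase_add_one (mem_filter.2 ⟨h, hw⟩)]

omit [Fintype ι] in
lemma f1_f1 (x : ι → Bool) (j : ι) : f1 (f1 x j) j = x := by
  funext i
  by_cases hi : i = j
  · subst hi; simp
  · rw [f1_ne _ hi, f1_ne _ hi]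

omit [Fintype ι] in
lemma cnt_f1_right {z : ι → Bool} {s : Finset ι} {x : ι → Bool} {j : ι} (h : j ∈ s)
    (hw : x j = z j) : cnt z s (f1 x j) = cnt z s x + 1 := by
  have := cnt_f1_wrong (z := z) (x := f1 x j) h (by rw [f1_self, hw]; simp)
  rw [f1_f1] at this
  omega

omit [Fintype ι] in
lemma cnt_f1_le (z : ι → Bool) (s : Finset ι) (x : ι → Bool) (j : ι) :
    cnt z s (f1 x j) ≤ cnt z s x + 1 := by
  by_cases h : j ∈ s
  · by_cases hw : x j = z j
    · rw [cnt_f1_right h hw]
    · have := cnt_f1_wrong h hw; omega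
  · rw [cnt_f1_not h]; omega

omit [Fintype ι] in
lemma cnt_n1_le (z : ι → Bool) (s : Finset ι) (x : ι → Bool) (j : ι) :
    cnt z s (n1 z x j) ≤ cnt z s x := by
  unfold n1
  split_ifs with hw
  · exact le_rfl
  · by_cases h : j ∈ s
    · have := cnt_f1_wrong h hw; omega
    · rw [cnt_f1_not h]

omit [DecidableEq ι] in
lemma dist_eq (z x : ι → Bool) : dist z x = cnt z univ x := rfl

lemma nxt_f1 (z x : ι → Bool) (j : ι) : nxt z x (f1 x j) = n1 z x j := by
  unfold nxt n1
  by_cases hw : x j = z j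
  · have := cnt_f1_right (mem_univ j) hw
    rw [if_pos hw, if_neg (by rw [dist_eq, dist_eq]; omega)]
  · have := cnt_f1_wrong (mem_univ j) hw
    rw [if_neg hw, if_pos (by rw [dist_eq, dist_eq]; omega)]

omit [DecidableEq ι] in
lemma dist_flip (z x S : ι → Bool) :
    (dist z (flip x S) : ℤ) = dist z x - ∑ j, gn z x S j := by
  unfold dist
  rw [card_filter, card_filter]
  push_cast
  rw [← sum_sub_distrib]
  refine sum_congr rfl fun j _ => ?_
  unfold flip gn
  cases x j <;> cases z j <;> cases S j <;> simp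

omit [DecidableEq ι] in
lemma nxt_acc {z x S : ι → Bool} (h : 0 ≤ ∑ j, gn z x S j) : nxt z x (flip x S) = flip x S := by
  have := dist_flip z x S
  rw [nxt, if_pos (by omega)]

omit [DecidableEq ι] in
lemma nxt_rej {z x S : ι → Bool} (h : ∑ j, gn z x S j < 0) : nxt z x (flip x S) = x := by
  have := dist_flip z x S
  rw [nxt, if_neg (by omega)]

omit [DecidableEq ι] in
lemma nxt_or (z x y : ι → Bool) : nxt z x y = y ∨ nxt z x y = x := by
  unfold nxt; split_ifs <;> simp

omit [DecidableEq ι] in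
lemma dist_nxt (z x y : ι → Bool) : dist z (nxt z x y) ≤ dist z x := by
  unfold nxt; split_ifs with h
  · exact h
  · exact le_rfl

omit [DecidableEq ι] in
lemma nxt_same (z x : ι → Bool) : nxt z x x = x := by simp [nxt]

lemma H_succ_le {St : (ι → Bool) → ((ι → Bool) → ℝ) → ℝ} {z x : ι → Bool} {m : ℕ} {G : ℝ}
    (hG : 0 ≤ G) (hs : x ≠ z → 1 + St x (fun y => H St z m (nxt z x y)) ≤ G) :
    H St z (m + 1) x ≤ G := by
  rw [H]
  split_ifs with h
  · exact hG
  · exact hs h

end generic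

/-- race weight -/
noncomputable def gw (l : ℝ) (d k : ℕ) : ℝ := if d = 0 then 0 else (l * d) ^ k

lemma gw_nonneg {l : ℝ} (hl : 0 ≤ l) (d k : ℕ) : 0 ≤ gw l d k := by
  unfold gw; split_ifs <;> positivity

lemma gw_le {l : ℝ} (hl : 0 ≤ l) {d T : ℕ} (h : d ≤ T) (k : ℕ) : gw l d k ≤ (l * T) ^ k := by
  unfold gw
  split_ifs
  · positivity
  · have : (d : ℝ) ≤ T := by exact_mod_cast h
    gcongr

lemma gw_mono {l : ℝ} (hl : 0 ≤ l) {d d' : ℕ} (h : d ≤ d') (k : ℕ) : gw l d k ≤ gw l d' k := by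
  by_cases h0 : d' = 0
  · have : d = 0 := by omega
    rw [this, h0]
  · have := gw_le hl h k
    rwa [show gw l d' k = (l * d') ^ k by simp [gw, h0]]

lemma gw_race {l : ℝ} (hl : 0 ≤ l) (d k : ℕ) :
    gw l d (k + 1) + l * gw l (d + 1) k ≤ gw l (d + 1) (k + 1) := by
  have h1 : gw l d (k + 1) = (l * d) ^ (k + 1) := by
    unfold gw; split_ifs with h
    · simp [h]
    · rfl
  rw [h1]
  simp only [gw, Nat.add_eq_zero_iff, one_ne_zero, and_false, if_false]
  push_cast
  have h2 : (l * d) ^ k ≤ (l * (d + 1)) ^ k := by gcongr; linarith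
  have h3 : 0 ≤ l * d := by positivity
  rw [pow_succ, pow_succ]
  nlinarith [mul_le_mul_of_nonneg_right h2 h3]

structure Par where
  P : ℕ
  b : ℕ
  K : ℕ
  N : ℕ
  enc : ℕ × ℕ → Fin P → Bool
  dec : (Fin P → Bool) → ℕ × ℕ
  q : ℝ
  r0 : ℝ

variable (π : Par)

abbrev Par.M : ℕ := 6 + π.P + π.b

abbrev Pos : Type := Unit ⊕ Fin 6 ⊕ Fin π.P ⊕ Fin π.P ⊕ Fin π.M ⊕ Fin π.K ⊕ Fin π.N

variable {π}

abbrev pt : Pos π := .inl ()
abbrev pu (k : Fin 6) : Pos π := .inr (.inl k)
abbrev pa (k : Fin π.P) : Pos π := .inr (.inr (.inl k))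
abbrev pb (k : Fin π.P) : Pos π := .inr (.inr (.inr (.inl k)))
abbrev pm (k : Fin π.M) : Pos π := .inr (.inr (.inr (.inr (.inl k))))
abbrev pe (k : Fin π.K) : Pos π := .inr (.inr (.inr (.inr (.inr (.inl k)))))
abbrev po (k : Fin π.N) : Pos π := .inr (.inr (.inr (.inr (.inr (.inr k)))))

def mkS (t : Bool) (u : Fin 6 → Bool) (a b : Fin π.P → Bool) (m : Fin π.M → Bool)
    (e : Fin π.K → Bool) (o : Fin π.N → Bool) : Pos π → Bool :=
  Sum.elim (fun _ => t) (Sum.elim u (Sum.elim a (Sum.elim b (Sum.elim m (Sum.elim e o)))))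

section mk
variable (t : Bool) (u : Fin 6 → Bool) (a b : Fin π.P → Bool) (m : Fin π.M → Bool)
    (e : Fin π.K → Bool) (o : Fin π.N → Bool)
@[simp] lemma mkS_t : mkS t u a b m e o pt = t := rfl
@[simp] lemma mkS_u (k : Fin 6) : mkS t u a b m e o (pu k) = u k := rfl
@[simp] lemma mkS_a (k : Fin π.P) : mkS t u a b m e o (pa k) = a k := rfl
@[simp] lemma mkS_b (k : Fin π.P) : mkS t u a b m e o (pb k) = b k := rfl
@[simp] lemma mkS_m (k : Fin π.M) : mkS t u a b m e o (pm k) = m k := rfl
@[simp] lemma mkS_e (k : Fin π.K) : mkS t u a b m e o (pe k) = e k := rfl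
@[simp] lemma mkS_o (k : Fin π.N) : mkS t u a b m e o (po k) = o k := rfl
end mk

lemma sum_pos {β : Type} [AddCommMonoid β] (g : Pos π → β) : ∑ j, g j = g pt + (∑ k, g (pu k) +
    (∑ k, g (pa k) + (∑ k, g (pb k) + (∑ k, g (pm k) + (∑ k, g (pe k) + ∑ k, g (po k)))))) := by
  simp [Fintype.sum_sum_type]

variable (π)

def Fs : Finset (Pos π) := univ.filter fun j => mkS true (fun _ => false) (fun _ => true)
  (fun _ => true) (fun _ => true) (fun _ => true) (fun _ => false) j = true
def Us : Finset (Pos π) := univ.filter fun j => mkS false (fun _ => true) (fun _ => false)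
  (fun _ => false) (fun _ => false) (fun _ => false) (fun _ => false) j = true
def As : Finset (Pos π) := univ.filter fun j => mkS false (fun _ => false) (fun _ => true)
  (fun _ => true) (fun _ => false) (fun _ => false) (fun k => decide (k.val ≤ π.b)) j = true
def Es : Finset (Pos π) := univ.filter fun j => mkS false (fun _ => false) (fun _ => false)
  (fun _ => false) (fun _ => false) (fun _ => true) (fun _ => false) j = true

lemma card_Fs : (Fs π).card = 1 + 2 * π.P + π.M + π.K := by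
  rw [Fs, card_filter, sum_pos]; simp; ring
lemma card_Us : (Us π).card = 6 := by
  rw [Us, card_filter, sum_pos]; simp
lemma card_Es : (Es π).card = π.K := by
  rw [Es, card_filter, sum_pos]; simp
lemma card_As : (As π).card ≤ 2 * π.P + π.b + 1 := by
  rw [As, card_filter, sum_pos]
  simp only [mkS_t, mkS_u, mkS_a, mkS_b, mkS_m, mkS_e, mkS_o]
  have : (univ.filter (fun k : Fin π.N => k.val ≤ π.b)).card ≤ (range (π.b + 1)).card :=
    card_le_card_of_injOn (fun k => k.val) (fun k hk => by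
      simp only [coe_filter, mem_univ, true_and, Set.mem_setOf_eq] at hk
      simp only [coe_range, Set.mem_Iio]; omega) (fun a _ b _ h => Fin.ext h)
  simp at this ⊢
  omega

variable {π}

def mc (x : Pos π → Bool) : ℕ := (univ.filter (fun k : Fin π.M => x (pm k) = true)).card

def markS (x : Pos π → Bool) (r : ℕ) (e1 e2 : Fin π.K) : Pos π → Bool :=
  mkS false (fun _ => false) (fun p => decide (6 + p.val = r) && x (pa p))
    (fun p => decide (6 + p.val = r) && !x (pa p)) (fun k => decide (k.val = r))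
    (fun e => decide (e = e1 ∨ e = e2)) (fun k => decide (6 + π.P + k.val = r))

def scanS (x : Pos π → Bool) (i c : ℕ) (s : ℕ × ℕ) : Pos π → Bool :=
  mkS false (fun _ => false) (fun p => xor (x (pa p)) (π.enc s p))
    (fun p => xor (x (pa p)) (π.enc s p)) (fun _ => false) (fun _ => false)
    (fun k => decide (k.val = i ∨ k.val = c))

def finS (β : ℕ) : Pos π → Bool :=
  mkS false (fun _ => true) (fun _ => false) (fun _ => false) (fun _ => false) (fun _ => false)
    (fun k => decide (k.val < β))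

def isTU : Pos π → Bool := mkS true (fun _ => true) (fun _ => false) (fun _ => false)
  (fun _ => false) (fun _ => false) (fun _ => false)

def ex (x : Pos π → Bool) (j : Pos π) : Pos π → Bool :=
  if isTU j = true then f1 x j else f1 (f1 x pt) j

noncomputable def Mark (x : Pos π → Bool) (g : (Pos π → Bool) → ℝ) : ℝ :=
  avg univ (fun ee : Fin π.K × Fin π.K => g (flip x (markS x (mc x) ee.1 ee.2)))

noncomputable def Scan (x : Pos π → Bool) (s : ℕ × ℕ) (g : (Pos π → Bool) → ℝ) : ℝ :=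
  if s.1 < π.N then 1 / 16 * g (flip x (scanS x s.1 (s.2 - 1) (s.1, s.2 - 1)))
    + (1 - 1 / 16) * g (flip x (scanS x s.1 s.2 (s.1 + 1, s.2 + 1)))
  else g (flip x (finS s.2))

noncomputable def Work (x : Pos π → Bool) (g : (Pos π → Bool) → ℝ) : ℝ :=
  if mc x < 6 then π.r0 * Mark x g + (1 - π.r0) * avg (As π) (fun j => g (f1 x j))
  else if mc x < π.M then Mark x g else Scan x (π.dec (fun p => x (pa p))) g

def Fast (x : Pos π → Bool) : Prop := ∃ k, x (pu k) = true

open Classical in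
noncomputable def St (x : Pos π → Bool) (g : (Pos π → Bool) → ℝ) : ℝ :=
  if Fast x then 1 / 2 * avg (Fs π) (fun j => g (f1 x j))
    + (1 - 1 / 2) * avg univ (fun j => g (f1 x j))
  else if x pt = false then π.q * g (f1 x pt)
    + (1 - π.q) * avg univ (fun j => g (if j = pt then x else f1 x j))
  else π.q * avg univ (fun j => g (ex x j)) + (1 - π.q) * Work x g

variable (π)

noncomputable def nn : ℝ := Fintype.card (Pos π)
noncomputable def YY : ℝ := 2 * nn π / π.q * (2 * nn π + 1)
noncomputable def XX : ℝ := 2 * nn π * (1 + π.q * YY π) * nn π + 1 / π.q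

structure Good : Prop where
  hK : 0 < π.K
  q0 : 0 < π.q
  q1 : π.q ≤ 1 / 2
  r0 : 0 < π.r0
  r1 : π.r0 ≤ 1 / 2
  hb : π.b + 1 ≤ π.N
  de : ∀ i β, i ≤ π.N → β ≤ π.N → π.dec (π.enc (i, β)) = (i, β)
  e0 : π.enc (π.b + 1, π.b) = fun _ => false
  qn : 2 * nn π ≤ 1 / π.q
  qX : π.q * XX π ≤ 2

variable {π}

lemma Fs_ne : (Fs π).Nonempty := ⟨pt, by simp [Fs]⟩
lemma As_ne (G : Good π) : (As π).Nonempty := ⟨po ⟨0, by have := G.hb; omega⟩, by simp [As]⟩

lemma isExp_Work (G : Good π) (x : Pos π → Bool) : IsExp (Work x) := by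
  haveI : Nonempty (Fin π.K) := ⟨⟨0, G.hK⟩⟩
  have hM : IsExp (Mark x) := IsExp.avg univ_nonempty _
  unfold Work
  split_ifs
  · exact IsExp.mix G.r0.le (by linarith [G.r1]) hM (IsExp.avg (As_ne G) _)
  · exact hM
  · unfold Scan
    split_ifs
    · exact IsExp.mix (by norm_num) (by norm_num) (IsExp.pure _) (IsExp.pure _)
    · exact IsExp.pure _

lemma isExp_St (G : Good π) (x : Pos π → Bool) : IsExp (St x) := by
  have h1 : π.q ≤ 1 := by linarith [G.q1]
  unfold St
  split_ifs
  · exact IsExp.mix (by norm_num) (by norm_num) (IsExp.avg Fs_ne _) (IsExp.avg univ_nonempty _)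
  · exact IsExp.mix G.q0.le h1 (IsExp.pure _) (IsExp.avg univ_nonempty _)
  · exact IsExp.mix G.q0.le h1 (IsExp.avg univ_nonempty _) (isExp_Work G x)

lemma nn_pos : 1 ≤ nn π := by
  unfold nn
  exact_mod_cast Fintype.card_pos

lemma card_univ_nn : ((univ : Finset (Pos π)).card : ℝ) = nn π := rfl

lemma YY_pos (G : Good π) : 0 < YY π := by
  have := nn_pos (π := π)
  have := G.q0
  unfold YY; positivity

end Pool.Agent.H.MP_f3ccbb_lc
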