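import Pool.Agent.H.MP_f3ccbb_lc.B

set_option autoImplicit false

namespace Pool.Agent.H.MP_f3ccbb_lc

open Finset

variable {π : Par} {z : Pos π → Bool}

noncomputable abbrev hh (z : Pos π → Bool) : ℕ → (Pos π → Bool) → ℝ := H (St (π := π)) z

def Main (x : Pos π → Bool) : Prop := ¬ Fast x ∧ x pt = true
def Slow (x : Pos π → Bool) : Prop := ¬ Fast x ∧ x pt = false

lemma St_fast {x : Pos π → Bool} (hx : Fast x) (f : (Pos π → Bool) → ℝ) :
    St x (fun y => f (nxt z x y)) = 1 / 2 * avg (Fs π) (fun j => f (n1 z x j))
      + (1 - 1 / 2) * avg univ (fun j => f (n1 z x j)) := by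
  simp only [St, if_pos hx, nxt_f1]

lemma St_slow {x : Pos π → Bool} (hx : Slow x) (f : (Pos π → Bool) → ℝ) :
    St x (fun y => f (nxt z x y)) = π.q * f (n1 z x pt)
      + (1 - π.q) * avg univ (fun j => f (if j = pt then x else n1 z x j)) := by
  simp only [St, if_neg hx.1, if_pos hx.2, nxt_f1]
  congr 3
  funext j
  split_ifs
  · rw [nxt_same]
  · rw [nxt_f1]

lemma St_main {x : Pos π → Bool} (hx : Main x) (g : (Pos π → Bool) → ℝ) :
    St x g = π.q * avg univ (fun j => g (ex x j)) + (1 - π.q) * Work x g := by
  have : ¬ x pt = false := by rw [hx.2]; simp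
  simp only [St, if_neg hx.1, if_neg this]

lemma modes (x : Pos π → Bool) : Fast x ∨ Slow x ∨ Main x := by
  unfold Slow Main
  by_cases h : Fast x
  · exact Or.inl h
  · cases h2 : x pt <;> simp [h]

lemma exists_wrong {x : Pos π → Bool} (h : x ≠ z) : ∃ j, x j ≠ z j := by
  by_contra h1
  push Not at h1
  exact h (funext h1)

lemma dist_le_nn (x : Pos π → Bool) : (dist z x : ℝ) ≤ nn π := by
  unfold nn
  exact_mod_cast cnt_le z univ x

open Classical in
noncomputable def U0 (z x : Pos π → Bool) : ℝ :=
  2 * nn π / π.q * (2 * dist z x + if Main x then 1 else 0)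

lemma layer0 (G : Good π) : ∀ m x, hh z m x ≤ U0 z x := by
  have hn := nn_pos (π := π)
  have hq := G.q0
  have hq1 := G.q1
  have hK : 0 < 2 * nn π / π.q := by positivity
  have hU : ∀ x, 0 ≤ U0 z x := fun x => by unfold U0; split_ifs <;> positivity
  have hA : ∀ x y, dist z y + 1 ≤ dist z x → U0 z y ≤ U0 z x - 2 * nn π / π.q := by
    intro x y h
    have h' : (dist z y : ℝ) + 1 ≤ dist z x := by exact_mod_cast h
    unfold U0
    split_ifs <;> nlinarith
  have hA1 : ∀ x j, x j ≠ z j → U0 z (n1 z x j) ≤ U0 z x - 2 * nn π / π.q := by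
    intro x j h
    rw [n1, if_neg h]
    exact hA _ _ (cnt_f1_wrong (mem_univ j) h).le
  have hB : ∀ x j, U0 z (n1 z x j) ≤ U0 z x := by
    intro x j
    by_cases h : x j = z j
    · rw [n1, if_pos h]
    · have := hA1 x j h; linarith
  have hq2 : 2 * nn π / π.q / nn π = 2 / π.q := by field_simp
  have hq3 : 4 ≤ 2 / π.q := by rw [le_div_iff₀ hq]; linarith
  intro m
  induction m with
  | zero => exact hU
  | succ m ih =>
    intro x
    refine H_succ_le (hU x) fun hx => ?_
    obtain ⟨j0, hj0⟩ := exists_wrong hx
    rcases modes x with h | h | h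
    · rw [St_fast h]
      have h1 : avg (Fs π) (fun j => hh z m (n1 z x j)) ≤ U0 z x :=
        avg_le Fs_ne fun j _ => (ih _).trans (hB x j)
      have h2 := avg_le_one (s := univ) (g := fun j => hh z m (n1 z x j)) (mem_univ j0)
        (fun j _ => (ih _).trans (hB x j)) ((ih _).trans (hA1 x j0 hj0))
      rw [card_univ_nn, hq2] at h2
      linarith
    · rw [St_slow h]
      have h3 : ∀ j ∈ univ, hh z m (if j = pt then x else n1 z x j) ≤ U0 z x := by
        intro j _
        split_ifs
        · exact ih _
        · exact (ih _).trans (hB x j)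
      by_cases ht : x pt = z pt
      · have hj : j0 ≠ pt := fun h => hj0 (h ▸ ht)
        have h2 := avg_le_one (s := univ) (g := fun j => hh z m (if j = pt then x else n1 z x j))
          (mem_univ j0) h3 (by simp only [if_neg hj]; exact (ih _).trans (hA1 x j0 hj0))
        rw [card_univ_nn, hq2] at h2
        have h1 := (ih _).trans (hB x pt)
        nlinarith
      · have h2 := avg_le univ_nonempty h3
        have h1 := (ih _).trans (hA1 x pt ht)
        have h4 : π.q * (2 * nn π / π.q) = 2 * nn π := by field_simp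
        nlinarith
    · rw [St_main h]
      have h3 : ∀ y, hh z m (nxt z x y) ≤ U0 z x := by
        intro y
        refine (ih _).trans ?_
        have h4 : (dist z (nxt z x y) : ℝ) ≤ dist z x := by exact_mod_cast dist_nxt z x y
        unfold U0
        rw [if_pos h]
        split_ifs <;> nlinarith
      have h5 : hh z m (nxt z x (ex x j0)) ≤ U0 z x - 2 * nn π / π.q := by
        refine (ih _).trans ?_
        unfold ex
        split_ifs with h6
        · rw [nxt_f1]; exact hA1 x j0 hj0
        · have hj : j0 ≠ pt := by rintro rfl; simp [isTU] at h6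
          have h7 := cnt_f1_wrong (z := z) (x := f1 x pt) (mem_univ j0) (by rwa [f1_ne x hj])
          have h8 := cnt_f1_le z univ x pt
          have h9 : dist z (f1 (f1 x pt) j0) ≤ dist z x := by rw [dist_eq, dist_eq]; omega
          rw [nxt, if_pos h9]
          have h10 : ¬ Main (f1 (f1 x pt) j0) := by
            intro h11
            have := h11.2
            rw [f1_ne _ hj.symm, f1_self, h.2] at this
            simp at this
          have h4 : (dist z (f1 (f1 x pt) j0) : ℝ) ≤ dist z x := by exact_mod_cast h9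
          unfold U0
          rw [if_pos h, if_neg h10]
          nlinarith
      have h2 := avg_le_one (s := univ) (g := fun j => hh z m (nxt z x (ex x j))) (mem_univ j0)
        (fun j _ => h3 _) h5
      rw [card_univ_nn, hq2] at h2
      have h1 := (isExp_Work G x).le_const h3
      have h4 : π.q * (2 / π.q) = 2 := by field_simp
      nlinarith

lemma le_Y (G : Good π) (m : ℕ) (x : Pos π → Bool) : hh z m x ≤ YY π := by
  refine (layer0 G m x).trans ?_
  have hn := nn_pos (π := π)
  have hq := G.q0
  have hK : 0 < 2 * nn π / π.q := by positivity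
  have := dist_le_nn (z := z) x
  unfold U0 YY
  split_ifs <;> nlinarith

def S1 (z x : Pos π → Bool) : Prop := ∃ k, x (pu k) = true ∧ z (pu k) = true

lemma n1_right {x : Pos π → Bool} {i : Pos π} (h : x i = z i) (j : Pos π) :
    n1 z x j i = x i := by
  unfold n1
  split_ifs with h1
  · rfl
  · exact f1_ne x (fun h2 => h1 (h2 ▸ h))

lemma S1_n1 {x : Pos π → Bool} (h : S1 z x) (j : Pos π) : S1 z (n1 z x j) := by
  obtain ⟨k, h1, h2⟩ := h
  exact ⟨k, by rw [n1_right (h1.trans h2.symm), h1], h2⟩

lemma layer1 : ∀ m x, S1 z x → hh z m x ≤ 2 * nn π * dist z x := by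
  have hn := nn_pos (π := π)
  intro m
  induction m with
  | zero => intro x _; show (0 : ℝ) ≤ _; positivity
  | succ m ih =>
    intro x hx
    refine H_succ_le (by positivity) fun hne => ?_
    obtain ⟨j0, hj0⟩ := exists_wrong hne
    have hf : Fast x := let ⟨k, h1, _⟩ := hx; ⟨k, h1⟩
    rw [St_fast hf]
    have h3 : ∀ j, hh z m (n1 z x j) ≤ 2 * nn π * dist z x := by
      intro j
      refine (ih _ (S1_n1 hx j)).trans ?_
      have : (dist z (n1 z x j) : ℝ) ≤ dist z x := by exact_mod_cast cnt_n1_le z univ x j
      gcongr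
    have h1 := avg_le (g := fun j => hh z m (n1 z x j)) Fs_ne fun j _ => h3 j
    have h2 := avg_le_one (s := univ) (g := fun j => hh z m (n1 z x j)) (D := 2 * nn π)
      (mem_univ j0) (fun j _ => h3 j) (by
        refine (ih _ (S1_n1 hx j0)).trans (le_of_eq ?_)
        rw [n1, if_neg hj0, dist_eq, dist_eq, ← cnt_f1_wrong (mem_univ j0) hj0]
        push_cast; ring)
    rw [card_univ_nn, show 2 * nn π / nn π = 2 by field_simp] at h2
    linarith

lemma fast_f1 {x : Pos π → Bool} (hx : ¬ Fast x) {j : Pos π} (hj : x j ≠ z j)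
    (h : Fast (f1 x j)) : S1 z (f1 x j) := by
  obtain ⟨k, hk⟩ := h
  by_cases h1 : pu k = j
  · subst h1
    refine ⟨k, hk, ?_⟩
    rw [f1_self] at hk
    revert hj hk
    cases x (pu k) <;> cases z (pu k) <;> simp
  · rw [f1_ne x h1] at hk
    exact absurd ⟨k, hk⟩ hx

lemma layer2 (G : Good π) : ∀ m x, Slow x →
    hh z m x ≤ 2 * nn π * (1 + π.q * YY π) * cnt z (univ.erase pt) x + 1 / π.q := by
  have hn := nn_pos (π := π)
  have hq := G.q0
  have hq1 := G.q1
  have hY := YY_pos G
  have hqY : 0 < π.q * YY π := by positivity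
  intro m
  induction m with
  | zero => intro x _; show (0 : ℝ) ≤ _; positivity
  | succ m ih =>
    intro x hx
    refine H_succ_le (by positivity) fun hne => ?_
    rw [St_slow hx]
    set D := 2 * nn π * (1 + π.q * YY π) with hD
    have hD0 : 2 * nn π ≤ D := by rw [hD]; nlinarith
    have h4 : ∀ j, j ≠ pt → x j ≠ z j →
        hh z m (n1 z x j) ≤ D * cnt z (univ.erase pt) x + 1 / π.q - D := by
      intro j hj hw
      rw [n1, if_neg hw]
      have h5 := cnt_f1_wrong (s := univ.erase pt) (mem_erase.2 ⟨hj, mem_univ j⟩) hw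
      have h6 : (cnt z (univ.erase pt) x : ℝ) = cnt z (univ.erase pt) (f1 x j) + 1 := by
        exact_mod_cast h5.symm
      rw [h6]
      by_cases hf : Fast (f1 x j)
      · have h7 := layer1 m _ (fast_f1 hx.1 hw hf)
        have h8 : dist z (f1 x j) ≤ cnt z (univ.erase pt) (f1 x j) + 1 := by
          unfold dist cnt
          refine le_trans (card_le_card ?_) (card_insert_le pt _)
          intro i hi
          rw [mem_insert, mem_filter, mem_erase]
          rw [mem_filter] at hi
          tauto
        have h9 : (dist z (f1 x j) : ℝ) ≤ cnt z (univ.erase pt) (f1 x j) + 1 := by exact_mod_cast h8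
        have h10 := G.qn
        have h11 : (0 : ℝ) ≤ cnt z (univ.erase pt) (f1 x j) := by positivity
        nlinarith
      · have := ih (f1 x j) ⟨hf, by rw [f1_ne x hj.symm]; exact hx.2⟩
        linarith
    have h3 : ∀ j ∈ univ, hh z m (if j = pt then x else n1 z x j)
        ≤ D * cnt z (univ.erase pt) x + 1 / π.q := by
      intro j _
      split_ifs with hj
      · exact ih x hx
      · by_cases hw : x j = z j
        · rw [n1, if_pos hw]; exact ih x hx
        · have := h4 j hj hw; linarith
    rcases Nat.eq_zero_or_pos (cnt z (univ.erase pt) x) with h0 | h0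
    · have h5 := cnt_zero h0
      have ht : x pt ≠ z pt := by
        intro h6
        refine hne (funext fun j => ?_)
        by_cases hj : j = pt
        · exact hj ▸ h6
        · exact h5 j (mem_erase.2 ⟨hj, mem_univ j⟩)
      have h6 : n1 z x pt = z := by
        rw [n1, if_neg ht]
        funext j
        by_cases hj : j = pt
        · subst hj
          rw [f1_self]
          revert ht; cases x pt <;> cases z pt <;> simp
        · rw [f1_ne x hj]; exact h5 j (mem_erase.2 ⟨hj, mem_univ j⟩)
      have h2 := avg_le univ_nonempty h3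
      rw [h6, H_self, h0] at *
      simp only [Nat.cast_zero, mul_zero, zero_add] at h2 ⊢
      have h7 : π.q * (1 / π.q) = 1 := by field_simp
      nlinarith
    · obtain ⟨j0, hj0, hw⟩ := cnt_pos h0
      have hj := ne_of_mem_erase hj0
      have h2 := avg_le_one (s := univ) (g := fun j => hh z m (if j = pt then x else n1 z x j))
          (mem_univ j0) h3 (by simp only [if_neg hj]; exact h4 j0 hj hw)
      rw [card_univ_nn, show D / nn π = 2 * (1 + π.q * YY π) by rw [hD]; field_simp] at h2
      have h1 := le_Y (z := z) G m (n1 z x pt)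
      have h5 : 0 ≤ D * cnt z (univ.erase pt) x + 1 / π.q := by positivity
      nlinarith

lemma slow_X (G : Good π) (m : ℕ) {x : Pos π → Bool} (h : Slow x) : hh z m x ≤ XX π := by
  refine (layer2 G m x h).trans ?_
  have hn := nn_pos (π := π)
  have hq := G.q0
  have hY := YY_pos G
  have : (cnt z (univ.erase pt) x : ℝ) ≤ nn π := by
    unfold nn
    exact_mod_cast (cnt_le z _ x).trans (card_le_univ _)
  unfold XX
  gcongr

lemma S1_X (G : Good π) (m : ℕ) {x : Pos π → Bool} (h : S1 z x) : hh z m x ≤ XX π := by
  refine (layer1 m x h).trans ?_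
  have hn := nn_pos (π := π)
  have hq := G.q0
  have hY := YY_pos G
  have := dist_le_nn (z := z) x
  have h1 : 0 < π.q * YY π := by positivity
  have h2 : 0 < 1 / π.q := by positivity
  have h3 : 0 < nn π * nn π * (π.q * YY π) := by positivity
  unfold XX
  nlinarith

lemma step_main (G : Good π) {m : ℕ} {x : Pos π → Bool} (hx : Main x) {V : ℝ} (hV : 0 ≤ V)
    (h0 : hh z m x ≤ V) (hW : Work x (fun y => hh z m (nxt z x y)) ≤ V - 6) :
    hh z (m + 1) x ≤ V := by
  refine H_succ_le hV fun _ => ?_
  rw [St_main hx]
  have hX : 0 ≤ XX π := by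
    have hn := nn_pos (π := π)
    have hq := G.q0
    have hY := YY_pos G
    unfold XX; positivity
  have h1 : avg univ (fun j => hh z m (nxt z x (ex x j))) ≤ V + XX π := by
    refine avg_le univ_nonempty fun j _ => ?_
    unfold ex
    split_ifs with h2
    · rw [nxt_f1, n1]
      split_ifs with hw
      · linarith
      · by_cases hf : Fast (f1 x j)
        · have := S1_X G m (fast_f1 hx.1 hw hf); linarith
        · have hj : j = pt := by
            rcases j with ⟨⟨⟩⟩ | k | k | k | k | k | k
            · rfl
            · refine absurd ⟨k, ?_⟩ hf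
              rw [f1_self]
              have : ¬ x (pu k) = true := fun h => hx.1 ⟨k, h⟩
              simpa using this
            all_goals simp [isTU] at h2
          have := slow_X (z := z) G m (x := f1 x j) ⟨hf, by rw [hj, f1_self, hx.2]; rfl⟩
          linarith
    · rcases nxt_or z x (f1 (f1 x pt) j) with h3 | h3 <;> rw [h3]
      · have hj : j ≠ pt := by rintro rfl; simp [isTU] at h2
        have : Slow (f1 (f1 x pt) j) := by
          refine ⟨?_, by rw [f1_ne _ hj.symm, f1_self, hx.2]; rfl⟩
          rintro ⟨k, hk⟩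
          have h4 : pu k ≠ j := by rintro rfl; simp [isTU] at h2
          rw [f1_ne _ h4, f1_ne _ (by simp)] at hk
          exact hx.1 ⟨k, hk⟩
        have := slow_X (z := z) G m this
        linarith
      · linarith
  have := G.qX
  have := G.q0
  have := G.q1
  nlinarith

def S3 (z x : Pos π → Bool) : Prop :=
  (∀ k, x (po k) = z (po k)) ∧ ((∃ k, z (pu k) = true) → S1 z x)

open Classical in
noncomputable def cY (z : Pos π → Bool) : ℝ := if ∃ k, z (pu k) = true then 0 else YY π

noncomputable def l3 (π : Par) : ℝ := 6 * (Fs π).card / nn π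

noncomputable def G3 (z : Pos π → Bool) (d k : ℕ) : ℝ :=
  2 * (Fs π).card * d + 2 * nn π * k + cY z * gw (l3 π) d k

lemma layer3 (G : Good π) : ∀ m x, S3 z x → hh z m x ≤ G3 z (cnt z (Fs π) x) (cnt z (Us π) x) := by
  have hn := nn_pos (π := π)
  have hY := YY_pos G
  have hF : (0 : ℝ) < (Fs π).card := by exact_mod_cast card_pos.2 Fs_ne
  have hl : 0 ≤ l3 π := by unfold l3; positivity
  have hc : 0 ≤ cY z := by unfold cY; split_ifs; exacts [le_rfl, hY.le]
  have hG : ∀ d k, 0 ≤ G3 z d k := fun d k => by
    have := gw_nonneg hl d k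
    unfold G3; positivity
  intro m
  induction m with
  | zero => intro x _; exact hG _ _
  | succ m ih =>
    intro x hx
    have hz : cnt z (Fs π) x = 0 → cnt z (Us π) x = 0 → x = z := by
      intro h1 h2
      funext j
      rcases j with ⟨⟨⟩⟩ | k | k | k | k | k | k
      · exact cnt_zero h1 _ (by simp [Fs])
      · exact cnt_zero h2 _ (by simp [Us])
      · exact cnt_zero h1 _ (by simp [Fs])
      · exact cnt_zero h1 _ (by simp [Fs])
      · exact cnt_zero h1 _ (by simp [Fs])
      · exact cnt_zero h1 _ (by simp [Fs])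
      · exact hx.1 k
    by_cases hf : Fast x
    swap
    · have h1 : ¬ ∃ k, z (pu k) = true := fun h => let ⟨k, h1, _⟩ := hx.2 h; hf ⟨k, h1⟩
      have h2 : cnt z (Us π) x = 0 := by
        by_contra h3
        obtain ⟨j, hj, hw⟩ := cnt_pos (Nat.pos_of_ne_zero h3)
        rcases j with ⟨⟨⟩⟩ | k | k | k | k | k | k <;> simp [Us] at hj
        have h4 : ¬ x (pu k) = true := fun h => hf ⟨k, h⟩
        have h5 : ¬ z (pu k) = true := fun h => h1 ⟨k, h⟩
        simp only [Bool.not_eq_true] at h4 h5
        exact hw (h4.trans h5.symm)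
      by_cases h3 : cnt z (Fs π) x = 0
      · have h4 := hz h3 h2
        rw [h4, hh, H_self]; exact hG _ _
      · refine (le_Y G _ _).trans ?_
        rw [h2, G3, cY, if_neg h1, gw, if_neg h3]
        have : (0 : ℝ) ≤ 2 * (Fs π).card * cnt z (Fs π) x := by positivity
        simp only [Nat.cast_zero, mul_zero, pow_zero, mul_one]
        linarith
    refine H_succ_le (hG _ _) fun hne => ?_
    rw [St_fast hf]
    have hS : ∀ j, S3 z (n1 z x j) := fun j =>
      ⟨fun k => by rw [n1_right (hx.1 k), hx.1 k], fun h => S1_n1 (hx.2 h) j⟩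
    have hFU : ∀ j ∈ Fs π, j ∉ Us π := by
      intro j hj
      rcases j with ⟨⟨⟩⟩ | k | k | k | k | k | k <;> simp [Fs, Us] at hj ⊢
    have h1 : ∀ j ∈ Fs π, x j ≠ z j → ∀ d, cnt z (Fs π) x = d + 1 →
        hh z m (n1 z x j) ≤ G3 z d (cnt z (Us π) x) := by
      intro j hj hw d hd
      have h2 := ih _ (hS j)
      rw [n1, if_neg hw] at h2 ⊢
      have h3 := cnt_f1_wrong hj hw
      rwa [cnt_f1_not (hFU j hj), show cnt z (Fs π) (f1 x j) = d by omega] at h2
    have h2 : ∀ j, j ∉ Us π → hh z m (n1 z x j) ≤ G3 z (cnt z (Fs π) x) (cnt z (Us π) x) := by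
      intro j hj
      by_cases hw : x j = z j
      · rw [n1, if_pos hw]; exact ih x hx
      · have hj' : j ∈ Fs π := by
          rcases j with ⟨⟨⟩⟩ | k | k | k | k | k | k <;> simp [Fs, Us] at hj ⊢
          exact hw (hx.1 k)
        have h3 := cnt_f1_wrong hj' hw
        refine (h1 j hj' hw _ h3.symm).trans ?_
        rw [← h3]
        have := gw_mono hl (Nat.le_succ (cnt z (Fs π) (f1 x j))) (cnt z (Us π) x)
        unfold G3
        push_cast
        nlinarith
    have h3 : ∀ j ∈ Us π, x j ≠ z j → ∀ k, cnt z (Us π) x = k + 1 →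
        hh z m (n1 z x j) ≤ G3 z (cnt z (Fs π) x) k := by
      intro j hj hw k hk
      have h2 := ih _ (hS j)
      rw [n1, if_neg hw] at h2 ⊢
      have h3 := cnt_f1_wrong hj hw
      rwa [cnt_f1_not (fun h => hFU j h hj), show cnt z (Us π) (f1 x j) = k by omega] at h2
    rcases hd : cnt z (Fs π) x with _ | d
    · have h4 := avg_le (g := fun j => hh z m (n1 z x j)) Fs_ne fun j hj => h2 j (hFU j hj)
      rcases hk : cnt z (Us π) x with _ | k
      · exact absurd (hz hd hk) hne
      obtain ⟨j0, hj0, hw0⟩ := cnt_pos (z := z) (s := Us π) (x := x) (by omega)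
      have h5 : G3 z 0 k = G3 z 0 (k + 1) - 2 * nn π := by simp [G3, gw]; ring
      have h6 := avg_le_one (s := univ) (g := fun j => hh z m (n1 z x j)) (c := G3 z 0 (k + 1))
        (D := 2 * nn π) (mem_univ j0) (fun j _ => by
          by_cases hj : j ∈ Us π
          · by_cases hw : x j = z j
            · have := ih x hx
              rw [n1, if_pos hw]; rwa [hd, hk] at this
            · have := h3 j hj hw k hk
              rw [hd] at this; linarith
          · have := h2 j hj
            rwa [hd, hk] at this) (by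
          have := h3 j0 hj0 hw0 k hk
          rw [hd] at this; linarith)
      rw [card_univ_nn, show 2 * nn π / nn π = 2 by field_simp] at h6
      rw [hd, hk] at h4
      linarith
    · obtain ⟨j0, hj0, hw0⟩ := cnt_pos (z := z) (s := Fs π) (x := x) (by omega)
      obtain ⟨W, hW0, hW1, hW2⟩ : ∃ W : ℝ, 0 ≤ W ∧
          gw (l3 π) d (cnt z (Us π) x) + l3 π * W ≤ gw (l3 π) (d + 1) (cnt z (Us π) x) ∧
          ∀ k, cnt z (Us π) x = k + 1 → gw (l3 π) (d + 1) k ≤ W := by
        rcases cnt z (Us π) x with _ | k
        · exact ⟨0, le_rfl, by simpa using gw_mono hl (Nat.le_succ d) 0, fun k h => by omega⟩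
        · exact ⟨_, gw_nonneg hl _ _, gw_race hl d k, fun k' h => by
            rw [show k' = k by omega]⟩
      have h4 := avg_le_one (s := Fs π) (g := fun j => hh z m (n1 z x j))
        (c := G3 z (d + 1) (cnt z (Us π) x)) (D := 2 * (Fs π).card + cY z * (l3 π * W)) hj0
        (fun j hj => hd ▸ h2 j (hFU j hj)) (by
          refine (h1 j0 hj0 hw0 d hd).trans ?_
          unfold G3
          push_cast
          nlinarith)
      have h5 := avg_le_add (s := univ) (t := Us π) (g := fun j => hh z m (n1 z x j))
        (c := G3 z (d + 1) (cnt z (Us π) x)) (D := cY z * W) univ_nonempty (by positivity)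
        (fun j _ hj => hd ▸ h2 j hj) (fun j _ hj => by
          by_cases hw : x j = z j
          · have := ih x hx
            rw [n1, if_pos hw]
            rw [hd] at this
            have : 0 ≤ cY z * W := by positivity
            linarith
          · have h6 := cnt_f1_wrong hj hw
            have h7 := h3 j hj hw _ h6.symm
            have h8 := hW2 _ h6.symm
            have h9 := gw_nonneg hl (d + 1) (cnt z (Us π) x)
            rw [hd] at h7
            refine h7.trans ?_
            unfold G3
            rw [← h6] at h9 ⊢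
            push_cast
            nlinarith)
      rw [card_univ_nn, card_Us] at h5
      have h6 : (2 * (Fs π).card + cY z * (l3 π * W)) / (Fs π).card
          = 2 + (6 : ℕ) * (cY z * W) / nn π := by
        unfold l3; push_cast; field_simp
      rw [h6] at h4
      linarith

end Pool.Agent.H.MP_f3ccbb_lc
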