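import Pool.Agent.H.MP_f3ccbb_lc.C

set_option autoImplicit false

namespace Pool.Agent.H.MP_f3ccbb_lc

open Finset

variable {π : Par} {z : Pos π → Bool}

def wo (z x : Pos π → Bool) (k : ℕ) : Prop := ∃ h : k < π.N, x (po ⟨k, h⟩) ≠ z (po ⟨k, h⟩)

open Classical in
noncomputable def fo (z x : Pos π → Bool) (k : ℕ) : ℝ := if wo z x k then 2 / 3 else 4 / 3

noncomputable def R (z x : Pos π → Bool) : ℕ → ℝ
  | 0 => 1
  | m + 1 => fo z x (π.N - (m + 1)) * (1 + R z x m)

lemma fo_ge (x : Pos π → Bool) (k : ℕ) : 2 / 3 ≤ fo z x k := by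
  unfold fo; split_ifs <;> norm_num

lemma R_ge (x : Pos π → Bool) : ∀ m, 2 / 3 ≤ R z x m
  | 0 => by rw [R]; norm_num
  | m + 1 => by
    have h1 := R_ge x m
    have h2 := fo_ge (z := z) x (π.N - (m + 1))
    rw [R]; nlinarith

lemma wo_congr {x y : Pos π → Bool} {k : ℕ} (h : ∀ j : Fin π.N, j.val = k → x (po j) = y (po j)) :
    wo z x k ↔ wo z y k := by
  unfold wo
  exact exists_congr fun hk => by rw [h ⟨k, hk⟩ rfl]

lemma R_congr {x y : Pos π → Bool} : ∀ m, (∀ j : Fin π.N, π.N - m ≤ j.val → x (po j) = y (po j)) →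
    R z x m = R z y m
  | 0, _ => rfl
  | m + 1, h => by
    rw [R, R, R_congr m (fun j hj => h j (by omega)), fo, fo,
      wo_congr (fun j hj => h j (by omega))]

def Neu (z x : Pos π → Bool) (p : Fin π.P) : Prop := x (pa p) = z (pa p) ↔ ¬ x (pb p) = z (pb p)

structure S4 (z : Pos π → Bool) (i β : ℕ) (x : Pos π → Bool) : Prop where
  main : Main x
  marks : ∀ k, x (pm k) = true
  mem : ∀ p, x (pa p) = π.enc (i, β) p
  neu : ∀ p, Neu z x p
  lt : β < i
  le : i ≤ π.N
  bat : ∀ k : Fin π.N, k.val < β → x (po k) ≠ z (po k)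
  don : ∀ k : Fin π.N, β ≤ k.val → k.val < i → x (po k) = z (po k)

noncomputable def ZZ (π : Par) : ℝ :=
  2 * (Fs π).card * (Fs π).card + 12 * nn π + YY π * (l3 π * (Fs π).card) ^ 6

open Classical in
noncomputable def G4 (z : Pos π → Bool) (i β : ℕ) (x : Pos π → Bool) : ℝ :=
  6 * (40 * ((π.N - i : ℕ) : ℝ) + (if wo z x i then 0 else 20) + 1) + ZZ π
    + 96 * YY π * (1 / 2) ^ β * R z x (π.N - i)

lemma ZZ_nonneg (G : Good π) : 0 ≤ ZZ π := by
  have hn := nn_pos (π := π)
  have hY := YY_pos G
  unfold ZZ; positivity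

def vv (z x : Pos π → Bool) (j : Pos π) : ℤ := if x j = z j then -1 else 1

lemma gain_scan {x : Pos π → Bool} (hn : ∀ p, Neu z x p) {i c : Fin π.N} (h : i ≠ c) (s : ℕ × ℕ) :
    ∑ j, gn z x (scanS x i c s) j = vv z x (po i) + vv z x (po c) := by
  rw [sum_pos]
  have h1 : ∑ p, gn z x (scanS x i c s) (pa p) + ∑ p, gn z x (scanS x i c s) (pb p) = 0 := by
    rw [← sum_add_distrib]
    refine sum_eq_zero fun p _ => ?_
    have := hn p
    unfold Neu at this
    simp only [gn, scanS, mkS_a, mkS_b]
    split_ifs <;> simp_all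
  have h2 : ∑ k, gn z x (scanS x i c s) (po k) = vv z x (po i) + vv z x (po c) := by
    rw [← sum_pair (f := fun k => vv z x (po k)) h]
    symm
    refine sum_subset_zero_on_sdiff (subset_univ _) ?_ ?_
    · intro k hk
      simp only [mem_sdiff, mem_univ, mem_insert, mem_singleton, true_and, not_or] at hk
      simp [gn, scanS, Fin.val_inj, hk.1, hk.2]
    · intro k hk
      simp only [mem_insert, mem_singleton] at hk
      simp [gn, scanS, vv, Fin.val_inj, hk]
  have h3 : gn z x (scanS x i c s) pt = 0 := by simp [gn, scanS]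
  have h4 : ∑ k, gn z x (scanS x i c s) (pu k) = 0 := by simp [gn, scanS]
  have h5 : ∑ k, gn z x (scanS x i c s) (pm k) = 0 := by simp [gn, scanS]
  have h6 : ∑ k, gn z x (scanS x i c s) (pe k) = 0 := by simp [gn, scanS]
  linarith

lemma main_flip {x S : Pos π → Bool} (hx : Main x) (h1 : S pt = false) (h2 : ∀ k, S (pu k) = false) :
    Main (flip x S) := by
  refine ⟨fun ⟨k, hk⟩ => hx.1 ⟨k, ?_⟩, ?_⟩
  · simpa [flip, h2] using hk
  · simp [flip, h1, hx.2]

lemma scan_o (x : Pos π → Bool) (i c : ℕ) (s : ℕ × ℕ) (k : Fin π.N) :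
    flip x (scanS x i c s) (po k) = if k.val = i ∨ k.val = c then !x (po k) else x (po k) := by
  simp only [flip, scanS, mkS_o]
  split_ifs with h <;> simp [h]

lemma scan_neu {x : Pos π → Bool} (hn : ∀ p, Neu z x p) (i c : ℕ) (s : ℕ × ℕ) (p : Fin π.P) :
    Neu z (flip x (scanS x i c s)) p := by
  have := hn p
  unfold Neu at this ⊢
  simp only [flip, scanS, mkS_a, mkS_b]
  revert this
  cases x (pa p) <;> cases x (pb p) <;> cases z (pa p) <;> cases z (pb p) <;> cases π.enc s p <;> simp

lemma bne1 {a b : Bool} (h : a ≠ b) : (!a) = b := by revert h; cases a <;> cases b <;> simp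
lemma bne2 {a b : Bool} (h : a = b) : (!a) ≠ b := by revert h; cases a <;> cases b <;> simp

lemma layer4 (G : Good π) : ∀ m i β x, S4 z i β x → hh z m x ≤ G4 z i β x := by
  have hn := nn_pos (π := π)
  have hY := YY_pos G
  have hZ := ZZ_nonneg G
  have hG : ∀ i β x, 0 ≤ G4 z i β x := fun i β x => by
    have := R_ge (z := z) x (π.N - i)
    unfold G4; split_ifs <;> positivity
  intro m
  induction m with
  | zero => intro i β x _; exact hG _ _ _
  | succ m ih =>
    intro i β x hx
    by_cases hβ : β ≤ 6
    · refine (le_Y G _ _).trans ?_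
      have h1 := R_ge (z := z) x (π.N - i)
      have h2 : ((1 : ℝ) / 2) ^ 6 ≤ (1 / 2) ^ β := pow_le_pow_of_le_one (by norm_num) (by norm_num) hβ
      have h3 : (1 : ℝ) / 96 ≤ (1 / 2) ^ β * R z x (π.N - i) := by
        have := mul_le_mul h2 h1 (by norm_num) (by positivity)
        linarith
      have h4 : YY π ≤ 96 * YY π * (1 / 2) ^ β * R z x (π.N - i) := by nlinarith
      unfold G4
      split_ifs <;> nlinarith [Nat.cast_nonneg (α := ℝ) (π.N - i)]
    refine step_main G hx.main (hG _ _ _) (ih _ _ _ hx) ?_
    have hmc : mc x = π.M := by simp [mc, hx.marks]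
    have hdec : π.dec (fun p => x (pa p)) = (i, β) := by
      rw [show (fun p => x (pa p)) = π.enc (i, β) from funext hx.mem]
      exact G.de i β hx.le (by have := hx.lt; have := hx.le; omega)
    have hlt := hx.lt
    have hle := hx.le
    rw [Work, if_neg (by rw [hmc]; unfold Par.M; omega), if_neg (by omega), hdec, Scan]
    split_ifs with hi
    · dsimp only at hi ⊢
      obtain ⟨β', rfl⟩ : ∃ β', β = β' + 1 := ⟨β - 1, by omega⟩
      obtain ⟨r, hr⟩ : ∃ r, π.N - i = r + 1 := ⟨π.N - i - 1, by omega⟩
      have hr1 : π.N - (i + 1) = r := by omega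
      have hr2 : π.N - (r + 1) = i := by omega
      simp only [Nat.add_sub_cancel]
      have hRR : ∀ c s, c ≤ i → R z (flip x (scanS x i c s)) r = R z x r := by
        intro c s hc
        refine R_congr r fun j hj => ?_
        rw [scan_o, if_neg (by omega)]
      have hR0 := R_ge (z := z) x r
      -- the discharge move
      have g2 := gain_scan hx.neu (i := ⟨i, hi⟩) (c := ⟨β', by omega⟩)
        (fun h => by have := congrArg Fin.val h; simp at this; omega) (i, β')
      have w2 : vv z x (po ⟨β', by omega⟩) = 1 := by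
        rw [vv, if_neg (hx.bat _ (by simp))]
      have a2 : nxt z x (flip x (scanS x i β' (i, β'))) = flip x (scanS x i β' (i, β')) := by
        refine nxt_acc ?_
        rw [g2, w2, vv]; split_ifs <;> norm_num
      have s2 : S4 z i β' (flip x (scanS x i β' (i, β'))) := by
        refine ⟨main_flip hx.main rfl (fun _ => rfl), fun k => by simp [flip, scanS, hx.marks],
          fun p => by simp [flip, scanS], scan_neu hx.neu _ _ _, by omega, hle, ?_, ?_⟩
        · intro k hk
          rw [scan_o, if_neg (by omega)]
          exact hx.bat k (by omega)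
        · intro k h1 h2
          rw [scan_o]
          split_ifs with h3
          · exact bne1 (hx.bat k (by omega))
          · exact hx.don k (by omega) h2
      have b2 := ih _ _ _ s2
      have wo2 : wo z (flip x (scanS x i β' (i, β'))) i ↔ ¬ wo z x i := by
        unfold wo
        simp only [hi, exists_true_left, scan_o, true_or, if_true]
        cases x (po ⟨i, hi⟩) <;> cases z (po ⟨i, hi⟩) <;> simp
      have g1 := gain_scan hx.neu (i := ⟨i, hi⟩) (c := ⟨β' + 1, by omega⟩)
        (fun h => by have := congrArg Fin.val h; simp at this; omega) (i + 1, β' + 1 + 1)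
      have w1 : vv z x (po ⟨β' + 1, by omega⟩) = -1 := by
        rw [vv, if_pos (hx.don _ (by simp) (by simpa using hlt))]
      have hA : 0 ≤ YY π * (1 / 2) ^ β' := by positivity
      rw [a2]
      by_cases hw : wo z x i
      · have hw' : x (po ⟨i, hi⟩) ≠ z (po ⟨i, hi⟩) := hw.2
        have a1 : nxt z x (flip x (scanS x i (β' + 1) (i + 1, β' + 1 + 1)))
            = flip x (scanS x i (β' + 1) (i + 1, β' + 1 + 1)) := by
          refine nxt_acc ?_
          rw [g1, w1, vv, if_neg hw']; norm_num
        have s1 : S4 z (i + 1) (β' + 1 + 1) (flip x (scanS x i (β' + 1) (i + 1, β' + 1 + 1))) := by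
          refine ⟨main_flip hx.main rfl (fun _ => rfl), fun k => by simp [flip, scanS, hx.marks],
            fun p => by simp [flip, scanS], scan_neu hx.neu _ _ _, by omega, by omega, ?_, ?_⟩
          · intro k hk
            rw [scan_o]
            split_ifs with h3
            · exact bne2 (hx.don k (by omega) (by omega))
            · exact hx.bat k (by omega)
          · intro k h1 h2
            rw [scan_o]
            split_ifs with h3
            · have : k = ⟨i, hi⟩ := Fin.ext (by simp; omega)
              rw [this]; exact bne1 hw'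
            · exact hx.don k (by omega) (by omega)
        have b1 := ih _ _ _ s1
        rw [a1]
        rw [G4, hr1, hRR _ _ (by omega)] at b1
        rw [G4, hr, R, hr2, hRR _ _ (by omega), fo, if_neg (by rw [wo2]; simpa using hw),
          if_neg (by rw [wo2]; simpa using hw)] at b2
        rw [G4, hr, R, hr2, fo, if_pos hw, if_pos hw]
        have b1' : hh z m (flip x (scanS x i (β' + 1) (i + 1, β' + 1 + 1))) ≤
            6 * (40 * (r : ℝ) + 20 + 1) + ZZ π + 96 * YY π * (1 / 2) ^ (β' + 1 + 1) * R z x r := by
          refine b1.trans ?_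
          split_ifs <;> linarith
        push_cast at b2 ⊢
        simp only [pow_succ] at b1' ⊢
        nlinarith [mul_nonneg hA (show 0 ≤ R z x r by linarith)]
      · have hw' : x (po ⟨i, hi⟩) = z (po ⟨i, hi⟩) := by
          by_contra h; exact hw ⟨hi, h⟩
        have a1 : nxt z x (flip x (scanS x i (β' + 1) (i + 1, β' + 1 + 1))) = x := by
          refine nxt_rej ?_
          rw [g1, w1, vv, if_pos hw']; norm_num
        have b1 := ih _ _ _ hx
        rw [a1]
        rw [G4, hr, R, hr2, hRR _ _ (by omega), fo, if_pos (wo2.2 hw), if_pos (wo2.2 hw)] at b2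
        rw [G4, hr, R, hr2, fo, if_neg hw, if_neg hw] at b1 ⊢
        push_cast at b1 b2 ⊢
        simp only [pow_succ] at b1 ⊢
        nlinarith
    · dsimp only at hi ⊢
      have hiN : i = π.N := by omega
      have a1 : nxt z x (flip x (finS β)) = flip x (finS β) := by
        refine nxt_acc ?_
        rw [sum_pos]
        have h1 : -6 ≤ ∑ k, gn z x (finS β) (pu k) := by
          have : ∑ _k : Fin 6, (-1 : ℤ) ≤ ∑ k, gn z x (finS β) (pu k) :=
            sum_le_sum fun k _ => by unfold gn; split_ifs <;> norm_num
          simpa using this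
        have h2 : ∑ k, gn z x (finS β) (po k) = β := by
          have h3 : ∀ k : Fin π.N, gn z x (finS β) (po k) = if k.val < β then 1 else 0 := by
            intro k
            simp only [gn, finS, mkS_o, decide_eq_true_eq]
            split_ifs with h4 h5
            · exact absurd h5 (hx.bat k h4)
            · rfl
            · rfl
          simp only [h3]
          rw [sum_boole, Fin.card_filter_val_lt, min_eq_right (by omega)]
        rw [h2]
        simp only [gn, finS, mkS_t, mkS_a, mkS_b, mkS_m, mkS_e, Bool.false_eq_true, if_false,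
          sum_const_zero] at h1 ⊢
        omega
      have hu : ∀ k, flip x (finS β) (pu k) = true := by
        intro k
        have : ¬ x (pu k) = true := fun h => hx.main.1 ⟨k, h⟩
        simp [flip, finS, this]
      have s3 : S3 z (flip x (finS β)) := by
        refine ⟨fun k => ?_, fun ⟨k, hk⟩ => ⟨k, hu k, hk⟩⟩
        simp only [flip, finS, mkS_o]
        by_cases h : k.val < β
        · simpa [h] using bne1 (hx.bat k h)
        · simpa [h] using hx.don k (by omega) (by omega)
      rw [a1]
      refine (layer3 G m _ s3).trans ?_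
      have h1 : G3 z (cnt z (Fs π) (flip x (finS β))) (cnt z (Us π) (flip x (finS β))) ≤ ZZ π := by
        have h2 := cnt_le z (Fs π) (flip x (finS β))
        have h3 := cnt_le z (Us π) (flip x (finS β))
        rw [card_Us] at h3
        have h2' : (cnt z (Fs π) (flip x (finS β)) : ℝ) ≤ (Fs π).card := by exact_mod_cast h2
        have h3' : (cnt z (Us π) (flip x (finS β)) : ℝ) ≤ 6 := by exact_mod_cast h3
        have hF : (0 : ℝ) ≤ (Fs π).card := by positivity
        have hl : 0 ≤ l3 π := by unfold l3; positivity
        have h4 : cY z * gw (l3 π) (cnt z (Fs π) (flip x (finS β))) (cnt z (Us π) (flip x (finS β)))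
            ≤ YY π * (l3 π * (Fs π).card) ^ 6 := by
          unfold cY
          split_ifs with h5
          · rw [zero_mul]; positivity
          · have h6 : cnt z (Us π) (flip x (finS β)) = 6 := by
              rw [← card_Us π, cnt, filter_true_of_mem]
              intro j hj
              rcases j with ⟨⟨⟩⟩ | k | k | k | k | k | k <;> simp [Us] at hj
              rw [hu k]
              exact fun h => h5 ⟨k, h.symm⟩
            rw [h6]
            exact mul_le_mul_of_nonneg_left (gw_le hl h2 6) hY.le
        unfold G3 ZZ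
        nlinarith
      have h5 := R_ge (z := z) x (π.N - i)
      have h6 : 0 ≤ 96 * YY π * (1 / 2) ^ β * R z x (π.N - i) := by positivity
      unfold G4
      split_ifs <;> nlinarith [Nat.cast_nonneg (α := ℝ) (π.N - i)]

end Pool.Agent.H.MP_f3ccbb_lc
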