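import Pool.Agent.H.MP_f3ccbb_lc.D

set_option autoImplicit false

namespace Pool.Agent.H.MP_f3ccbb_lc

open Finset

variable {π : Par} {z : Pos π → Bool}

structure Pre (z : Pos π → Bool) (r : ℕ) (x : Pos π → Bool) : Prop where
  main : Main x
  marks : ∀ k : Fin π.M, x (pm k) = decide (k.val < r)
  le : r ≤ π.M
  pool : 2 * (π.M - r) ≤ cnt z (Es π) x

noncomputable def B4 (z x : Pos π → Bool) : ℝ :=
  6 * (40 * π.N + 21) + ZZ π + 96 * YY π * (1 / 2) ^ π.b * R z x (π.N - (π.b + 1))

lemma B4_nonneg (G : Good π) (x : Pos π → Bool) : 0 ≤ B4 z x := by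
  have hY := YY_pos G
  have hZ := ZZ_nonneg G
  have := R_ge (z := z) x (π.N - (π.b + 1))
  unfold B4; positivity

lemma B4_congr (G : Good π) {x y : Pos π → Bool}
    (h : ∀ k : Fin π.N, π.b < k.val → x (po k) = y (po k)) : B4 z x = B4 z y := by
  have := G.hb
  rw [B4, B4, R_congr _ (fun j hj => h j (by omega))]

lemma Pre.mc {r : ℕ} {x : Pos π → Bool} (h : Pre z r x) : mc x = r := by
  have := h.le
  simp only [MP_f3ccbb_lc.mc, h.marks, decide_eq_true_eq]
  rw [Fin.card_filter_val_lt, min_eq_right this]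

lemma Pre.mark {r : ℕ} {x : Pos π → Bool} (h : Pre z r x) (hr : r < π.M) (e1 e2 : Fin π.K) :
    Pre z (r + 1) (flip x (markS x r e1 e2)) := by
  refine ⟨main_flip h.main rfl (fun _ => rfl), fun k => ?_, hr, ?_⟩
  · simp only [flip, markS, mkS_m, h.marks]
    by_cases h1 : k.val < r
    · simp [h1, h1.ne, h1.trans (Nat.lt_succ_self r)]
    · by_cases h2 : k.val = r
      · simp [h2]
      · have : ¬ k.val < r + 1 := by omega
        simp [h1, h2, this]
  · have h1 : cnt z (Es π) x ≤ cnt z (Es π) (flip x (markS x r e1 e2)) + 2 := by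
      unfold cnt
      refine le_trans (card_le_card (t := insert (pe e1) (insert (pe e2)
        ((Es π).filter fun j => flip x (markS x r e1 e2) j ≠ z j))) ?_) ?_
      · intro j hj
        rw [mem_filter] at hj
        obtain ⟨hj, hw⟩ := hj
        have hj' := hj
        rcases j with ⟨⟨⟩⟩ | k | k | k | k | k | k <;> simp [Es] at hj'
        by_cases h1 : k = e1
        · simp [h1]
        by_cases h2 : k = e2
        · simp [h2]
        refine mem_insert_of_mem (mem_insert_of_mem (mem_filter.2 ⟨hj, ?_⟩))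
        simpa [flip, markS, h1, h2] using hw
      · refine (card_insert_le _ _).trans ?_
        have := card_insert_le (pe e2) ((Es π).filter fun j => flip x (markS x r e1 e2) j ≠ z j)
        omega
    have := h.pool
    omega

lemma B4_mark (G : Good π) (x : Pos π → Bool) {r : ℕ} (hr : r < π.M) (e1 e2 : Fin π.K) :
    B4 z (flip x (markS x r e1 e2)) = B4 z x := by
  refine B4_congr G fun k hk => ?_
  have : ¬ 6 + π.P + k.val = r := by unfold Par.M at hr; omega
  simp [flip, markS, this]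

lemma sum_ge_neg_one {n : ℕ} (g : Fin n → ℤ) (c : ℕ) (h1 : ∀ k, -1 ≤ g k)
    (r : ℕ) (h3 : ∀ k : Fin n, c + k.val ≠ r → g k = 0) :
    -1 ≤ ∑ k, g k := by
  by_cases h : ∃ k : Fin n, c + k.val = r
  · obtain ⟨k, hk⟩ := h
    rw [sum_eq_single k (fun j _ hj => h3 j (fun h => hj (Fin.ext (by omega)))) (by simp)]
    exact h1 k
  · push Not at h
    rw [sum_eq_zero fun k _ => h3 k (h k)]
    norm_num

lemma mark_acc {r : ℕ} {x : Pos π → Bool} (h : Pre z r x) (hr : r < π.M) :
    ∃ e1 e2, nxt z x (flip x (markS x r e1 e2)) = flip x (markS x r e1 e2) := by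
  have h1 : 1 < cnt z (Es π) x := by have := h.pool; omega
  obtain ⟨j1, hj1, j2, hj2, hne⟩ := one_lt_card.1 h1
  rw [mem_filter] at hj1 hj2
  obtain ⟨e1, rfl⟩ : ∃ e, j1 = pe e := by
    have := hj1.1
    rcases j1 with ⟨⟨⟩⟩ | k | k | k | k | k | k <;> simp [Es] at this
    exact ⟨k, rfl⟩
  obtain ⟨e2, rfl⟩ : ∃ e, j2 = pe e := by
    have := hj2.1
    rcases j2 with ⟨⟨⟩⟩ | k | k | k | k | k | k <;> simp [Es] at this
    exact ⟨k, rfl⟩
  have hne' : e1 ≠ e2 := fun h => hne (h ▸ rfl)
  refine ⟨e1, e2, nxt_acc ?_⟩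
  rw [sum_pos]
  have hg : ∀ j, -1 ≤ gn z x (markS x r e1 e2) j := fun j => by
    unfold gn; split_ifs <;> norm_num
  have a1 : gn z x (markS x r e1 e2) pt = 0 := by simp [gn, markS]
  have a2 : ∑ k, gn z x (markS x r e1 e2) (pu k) = 0 := by simp [gn, markS]
  have a3 : ∑ k, gn z x (markS x r e1 e2) (pe k) = 2 := by
    have : ∑ k ∈ {e1, e2}, gn z x (markS x r e1 e2) (pe k) = 2 := by
      rw [sum_pair hne']
      simp [gn, markS, hj1.2, hj2.2]
    rw [← this]
    symm
    refine sum_subset (subset_univ _) fun k _ hk => ?_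
    simp only [mem_insert, mem_singleton] at hk
    simp [gn, markS, hk]
  have a4 : -1 ≤ ∑ k, gn z x (markS x r e1 e2) (pm k) :=
    sum_ge_neg_one _ 0 (fun k => hg _) r (fun k hk => by
      have : ¬ k.val = r := by omega
      simp [gn, markS, this])
  have a5 : -1 ≤ ∑ k, (gn z x (markS x r e1 e2) (pa k) + gn z x (markS x r e1 e2) (pb k)) :=
    sum_ge_neg_one _ 6 (fun k => by
      simp only [gn, markS, mkS_a, mkS_b]
      split_ifs <;> simp_all) r (fun k hk => by
      simp [gn, markS, hk])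
  have a6 : -1 ≤ ∑ k, gn z x (markS x r e1 e2) (po k) :=
    sum_ge_neg_one _ (6 + π.P) (fun k => hg _) r (fun k hk => by
      simp [gn, markS, hk])
  by_cases h2 : r < 6 + π.P
  · have a7 : ∑ k, gn z x (markS x r e1 e2) (po k) = 0 := sum_eq_zero fun k _ => by
      have : ¬ 6 + π.P + k.val = r := by omega
      simp [gn, markS, this]
    rw [sum_add_distrib] at a5
    linarith
  · have a7 : ∑ k, (gn z x (markS x r e1 e2) (pa k) + gn z x (markS x r e1 e2) (pb k)) = 0 :=
      sum_eq_zero fun k _ => by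
        have : ¬ 6 + k.val = r := by omega
        simp [gn, markS, this]
    rw [sum_add_distrib] at a7
    linarith

lemma mark_le (G : Good π) {r : ℕ} {x : Pos π → Bool} (h : Pre z r x) (f : (Pos π → Bool) → ℝ)
    {V : ℝ} (h0 : f x ≤ V) (h1 : ∀ e1 e2, f (flip x (markS x r e1 e2)) ≤ V) :
    Mark x (fun y => f (nxt z x y)) ≤ V := by
  haveI : Nonempty (Fin π.K) := ⟨⟨0, G.hK⟩⟩
  rw [Mark, h.mc]
  refine avg_le univ_nonempty fun ee _ => ?_
  rcases nxt_or z x (flip x (markS x r ee.1 ee.2)) with h2 | h2 <;> rw [h2]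
  exacts [h1 _ _, h0]

lemma mark_le' (G : Good π) {r : ℕ} {x : Pos π → Bool} (h : Pre z r x) (hr : r < π.M)
    (f : (Pos π → Bool) → ℝ) {V D : ℝ} (hD : 0 ≤ D) (h0 : f x ≤ V)
    (h1 : ∀ e1 e2, f (flip x (markS x r e1 e2)) ≤ V - π.K ^ 2 * D) :
    Mark x (fun y => f (nxt z x y)) ≤ V - D := by
  obtain ⟨e1, e2, he⟩ := mark_acc h hr
  have hK : (0 : ℝ) < π.K := by exact_mod_cast G.hK
  have h3 : (0 : ℝ) ≤ π.K ^ 2 * D := by positivity
  rw [Mark, h.mc]
  have := avg_le_one (s := univ) (g := fun ee : Fin π.K × Fin π.K =>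
      f (nxt z x (flip x (markS x r ee.1 ee.2)))) (c := V) (D := π.K ^ 2 * D) (mem_univ (e1, e2))
    (fun ee _ => by
      rcases nxt_or z x (flip x (markS x r ee.1 ee.2)) with h2 | h2 <;> rw [h2]
      · have := h1 ee.1 ee.2; linarith
      · exact h0) (by rw [he]; exact h1 _ _)
  refine this.trans (le_of_eq ?_)
  simp only [card_univ, Fintype.card_prod, Fintype.card_fin]
  push_cast
  field_simp

structure S5 (z : Pos π → Bool) (r : ℕ) (x : Pos π → Bool) : Prop where
  pre : Pre z r x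
  ge : 6 ≤ r
  ch : ∀ p : Fin π.P, 6 + p.val < r → x (pa p) = false ∧ Neu z x p
  un : ∀ p : Fin π.P, r ≤ 6 + p.val → x (pa p) = z (pa p) ∧ x (pb p) = z (pb p)
  o1 : ∀ k : Fin π.N, 6 + π.P + k.val < r → x (po k) ≠ z (po k)
  o2 : ∀ k : Fin π.N, k.val ≤ π.b → r ≤ 6 + π.P + k.val → x (po k) = z (po k)

lemma layer5 (G : Good π) : ∀ m r x, S5 z r x →
    hh z m x ≤ 6 * π.K ^ 2 * ((π.M - r : ℕ) : ℝ) + B4 z x := by
  have hG : ∀ r x, 0 ≤ 6 * π.K ^ 2 * ((π.M - r : ℕ) : ℝ) + B4 z x := fun r x => by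
    have := B4_nonneg (z := z) G x
    positivity
  intro m
  induction m with
  | zero => intro r x _; exact hG _ _
  | succ m ih =>
    intro r x hx
    rcases hx.pre.le.eq_or_lt with hr | hr
    · have hM : π.M = 6 + π.P + π.b := rfl
      have s4 : S4 z (π.b + 1) π.b x := by
        refine ⟨hx.pre.main, fun k => ?_, fun p => ?_, fun p => (hx.ch p (by omega)).2, by omega,
          G.hb, fun k hk => hx.o1 k (by omega), fun k h1 h2 => hx.o2 k (by omega) (by omega)⟩
        · rw [hx.pre.marks, hr]; simp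
        · rw [G.e0]; exact (hx.ch p (by omega)).1
      refine (layer4 G _ _ _ _ s4).trans ?_
      have h1 : ((π.N - (π.b + 1) : ℕ) : ℝ) ≤ π.N := by exact_mod_cast Nat.sub_le _ _
      have h2 : (0 : ℝ) ≤ 6 * π.K ^ 2 * ((π.M - r : ℕ) : ℝ) := by positivity
      unfold G4 B4
      split_ifs <;> linarith
    · refine step_main G hx.pre.main (hG _ _) (ih _ _ hx) ?_
      have hge := hx.ge
      rw [Work, hx.pre.mc, if_neg (by omega), if_pos hr]
      refine mark_le' G hx.pre hr (hh z m) (by norm_num) (ih _ _ hx) fun e1 e2 => ?_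
      have s5 : S5 z (r + 1) (flip x (markS x r e1 e2)) := by
        refine ⟨hx.pre.mark hr e1 e2, by omega, fun p hp => ?_, fun p hp => ?_, fun k hk => ?_,
          fun k h1 hk => ?_⟩
        · unfold Neu
          by_cases h1 : 6 + p.val = r
          · have := hx.un p (by omega)
            simp only [flip, markS, mkS_a, mkS_b, h1, decide_true, Bool.true_and]
            revert this
            cases x (pa p) <;> cases x (pb p) <;> cases z (pa p) <;> cases z (pb p) <;> simp
          · have := hx.ch p (by omega)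
            unfold Neu at this
            simpa [flip, markS, h1] using this
        · have h1 : ¬ 6 + p.val = r := by omega
          simpa [flip, markS, h1] using hx.un p (by omega)
        · by_cases h1 : 6 + π.P + k.val = r
          · have hM : π.M = 6 + π.P + π.b := rfl
            simpa [flip, markS, h1] using bne2 (hx.o2 k (by omega) (by omega))
          · simpa [flip, markS, h1] using hx.o1 k (by omega)
        · have h1 : ¬ 6 + π.P + k.val = r := by omega
          simpa [flip, markS, h1] using hx.o2 k (by omega) (by omega)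
      refine (ih _ _ s5).trans (le_of_eq ?_)
      rw [B4_mark G x hr, show π.M - r = π.M - (r + 1) + 1 by omega]
      push_cast; ring

noncomputable def l0 (π : Par) : ℝ := 2 * (As π).card * π.r0

noncomputable def G6 (z x : Pos π → Bool) (d k : ℕ) : ℝ :=
  12 * (As π).card * d + 6 * π.K ^ 2 / π.r0 * k + YY π * gw (l0 π) d k
    + (6 * π.K ^ 2 * ((π.M - 6 : ℕ) : ℝ) + B4 z x)

lemma layer6 (G : Good π) : ∀ m r x, Pre z r x → r ≤ 6 →
    hh z m x ≤ G6 z x (cnt z (As π) x) (6 - r) := by
  have hY := YY_pos G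
  have hr0 := G.r0
  have hr1 := G.r1
  have hA : (0 : ℝ) < (As π).card := by exact_mod_cast card_pos.2 (As_ne G)
  have hl : 0 ≤ l0 π := by unfold l0; positivity
  have hG : ∀ x d k, 0 ≤ G6 z x d k := fun x d k => by
    have := B4_nonneg (z := z) G x
    have := gw_nonneg hl d k
    unfold G6; positivity
  have hM : π.M = 6 + π.P + π.b := rfl
  have hb := G.hb
  intro m
  induction m with
  | zero => intro r x _ _; exact hG _ _ _
  | succ m ih =>
    intro r x hx hr
    rcases hr.eq_or_lt with rfl | hr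
    · by_cases hd : cnt z (As π) x = 0
      · have h1 := cnt_zero hd
        have s5 : S5 z 6 x := ⟨hx, le_rfl, fun p hp => by omega,
          fun p _ => ⟨h1 _ (by simp [As]), h1 _ (by simp [As])⟩, fun k hk => by omega,
          fun k hk _ => h1 _ (by simp [As, hk])⟩
        refine (layer5 G _ _ _ s5).trans (le_of_eq ?_)
        simp [G6, hd, gw]
      · refine (le_Y G _ _).trans ?_
        have := B4_nonneg (z := z) G x
        have h2 : (0 : ℝ) ≤ 6 * π.K ^ 2 * ((π.M - 6 : ℕ) : ℝ) := by positivity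
        have h3 : (0 : ℝ) ≤ 12 * (As π).card * (cnt z (As π) x) := by positivity
        simp only [G6, gw, if_neg hd, Nat.sub_self, pow_zero, Nat.cast_zero]
        linarith
    refine step_main G hx.main (hG _ _ _) (ih _ _ hx hr.le) ?_
    rw [Work, hx.mc, if_pos hr]
    obtain ⟨k, hk⟩ : ∃ k, 6 - r = k + 1 := ⟨6 - r - 1, by omega⟩
    have h0 := ih _ _ hx hr.le
    rw [hk] at h0 ⊢
    have h1 : ∀ e1 e2, hh z m (flip x (markS x r e1 e2)) ≤ G6 z x (cnt z (As π) x) k := by
      intro e1 e2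
      have h2 := ih _ _ (hx.mark (by omega) e1 e2) hr
      have h3 : cnt z (As π) (flip x (markS x r e1 e2)) = cnt z (As π) x := by
        refine cnt_congr z fun j hj => ?_
        rcases j with ⟨⟨⟩⟩ | k | k | k | k | k | k <;> simp [As] at hj
        · have : ¬ 6 + k.val = r := by omega
          simp [flip, markS, this]
        · have : ¬ 6 + k.val = r := by omega
          simp [flip, markS, this]
        · have : ¬ 6 + π.P + k.val = r := by omega
          simp [flip, markS, this]
      rw [h3, show 6 - (r + 1) = k by omega] at h2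
      rwa [G6, B4_mark G x (by omega)] at h2
    have h2 : ∀ j ∈ As π, x j ≠ z j → ∀ d, cnt z (As π) x = d + 1 →
        hh z m (f1 x j) ≤ G6 z x d (k + 1) := by
      intro j hj hw d hd
      have h3 : Pre z r (f1 x j) := by
        have a1 : ∀ i, i ∉ As π → f1 x j i = x i := fun i hi => f1_ne x (fun h => hi (h ▸ hj))
        refine ⟨⟨fun ⟨k, hk⟩ => hx.main.1 ⟨k, ?_⟩, ?_⟩, fun k => ?_, hx.le, ?_⟩
        · rwa [a1 _ (by simp [As])] at hk
        · rw [a1 _ (by simp [As])]; exact hx.main.2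
        · rw [a1 _ (by simp [As])]; exact hx.marks k
        · rw [cnt_congr z (y := x)]
          · exact hx.pool
          · intro i hi
            refine a1 i ?_
            rcases i with ⟨⟨⟩⟩ | k | k | k | k | k | k <;> simp [As, Es] at hi ⊢
      have h4 := ih _ _ h3 hr.le
      have h5 := cnt_f1_wrong hj hw
      rw [hk, show cnt z (As π) (f1 x j) = d by omega, G6,
        B4_congr G (y := x) (fun k hk => f1_ne x (by rintro rfl; simp [As] at hj; omega))] at h4
      exact h4
    simp only [nxt_f1]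
    rcases hd : cnt z (As π) x with _ | d
    · rw [hd] at h0
      have h3 := avg_le (g := fun j => hh z m (n1 z x j)) (As_ne G) (c := G6 z x 0 (k + 1))
        fun j hj => by rw [n1, if_pos (cnt_zero hd j hj)]; exact h0
      have h4 := mark_le' G hx (by omega) (hh z m) (D := 6 / π.r0) (by positivity) h0
        fun e1 e2 => by
          refine (h1 e1 e2).trans (le_of_eq ?_)
          simp only [hd, G6, gw, if_true]
          push_cast; ring
      have h5 : π.r0 * (6 / π.r0) = 6 := by field_simp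
      nlinarith
    · rw [hd] at h0
      obtain ⟨j0, hj0, hw0⟩ := cnt_pos (z := z) (s := As π) (x := x) (by omega)
      have hW := gw_race hl d k
      have hW0 := gw_nonneg hl (d + 1) k
      have h6 : G6 z x d (k + 1) ≤ G6 z x (d + 1) (k + 1)
          - (12 * (As π).card + YY π * (l0 π * gw (l0 π) (d + 1) k)) := by
        unfold G6; push_cast; nlinarith
      have h7 : 0 ≤ 12 * (As π).card + YY π * (l0 π * gw (l0 π) (d + 1) k) := by positivity
      have h3 := avg_le_one (s := As π) (g := fun j => hh z m (n1 z x j))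
        (c := G6 z x (d + 1) (k + 1))
        (D := 12 * (As π).card + YY π * (l0 π * gw (l0 π) (d + 1) k)) hj0
        (fun j hj => by
          by_cases hw : x j = z j
          · rw [n1, if_pos hw]; exact h0
          · rw [n1, if_neg hw]
            have := h2 j hj hw d hd
            linarith) (by rw [n1, if_neg hw0]; exact (h2 j0 hj0 hw0 d hd).trans h6)
      have h4 := mark_le G hx (hh z m)
        (V := G6 z x (d + 1) (k + 1) + YY π * gw (l0 π) (d + 1) k)
        (by nlinarith) fun e1 e2 => by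
          refine (h1 e1 e2).trans ?_
          have := gw_nonneg hl (d + 1) (k + 1)
          have : 0 ≤ 6 * π.K ^ 2 / π.r0 := by positivity
          rw [hd]
          unfold G6; push_cast; nlinarith
      have h5 : (12 * (As π).card + YY π * (l0 π * gw (l0 π) (d + 1) k)) / (As π).card
          = 12 + 2 * π.r0 * (YY π * gw (l0 π) (d + 1) k) := by
        unfold l0; field_simp
      rw [h5] at h3
      have h8 : 0 ≤ YY π * gw (l0 π) (d + 1) k := by positivity
      have h9 : 0 ≤ π.r0 * (YY π * gw (l0 π) (d + 1) k) := by positivity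
      nlinarith

section expect
variable {ι : Type} [Fintype ι] [DecidableEq ι]

lemma sum_half (j : ι) (u v : (ι → Bool) → ℝ) (c : ℝ) (hv : ∀ ξ, v (f1 ξ j) = v ξ)
    (hu : ∀ ξ, u ξ + u (f1 ξ j) = 2 * c) : ∑ ξ, u ξ * v ξ = c * ∑ ξ, v ξ := by
  have hi : Function.Involutive (fun ξ : ι → Bool => f1 ξ j) := fun ξ => f1_f1 ξ j
  have h1 : ∑ ξ, u (f1 ξ j) * v (f1 ξ j) = ∑ ξ, u ξ * v ξ :=
    Equiv.sum_comp hi.toPerm (fun ξ => u ξ * v ξ)
  have h2 : ∑ ξ, u ξ * v ξ + ∑ ξ, u (f1 ξ j) * v (f1 ξ j) = 2 * c * ∑ ξ, v ξ := by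
    rw [← sum_add_distrib, mul_sum]
    exact sum_congr rfl fun ξ _ => by rw [hv, ← hu ξ]; ring
  linarith

lemma sum_cnt (z : ι → Bool) (s : Finset ι) :
    ∑ ξ, ((1 : ℝ) / 2) ^ cnt z s ξ = (3 / 4) ^ s.card * ∑ _ξ : ι → Bool, (1 : ℝ) := by
  induction s using Finset.induction_on with
  | empty => simp [cnt]
  | insert j s hj ih =>
    have h1 : ∀ ξ, ((1 : ℝ) / 2) ^ cnt z (insert j s) ξ
        = (if ξ j = z j then 1 else 1 / 2) * (1 / 2) ^ cnt z s ξ := by
      intro ξ
      unfold cnt
      rw [filter_insert]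
      by_cases h : ξ j = z j
      · simp [h]
      · rw [if_pos h, if_neg h, card_insert_of_notMem (by simp [hj]), pow_succ']
    simp only [h1]
    rw [sum_half j _ _ (3 / 4) (fun ξ => by rw [cnt_f1_not hj]) (fun ξ => by
      rw [f1_self]; cases ξ j <;> cases z j <;> norm_num), ih, card_insert_of_notMem hj, pow_succ]
    ring

end expect

lemma sum_R : ∀ m, m ≤ π.N → ∑ ξ, R z ξ m = (m + 1) * ∑ _ξ : Pos π → Bool, (1 : ℝ)
  | 0, _ => by simp [R]
  | m + 1, h => by
    simp only [R]
    have hk : π.N - (m + 1) < π.N := by omega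
    rw [sum_half (po ⟨_, hk⟩) _ _ 1 (fun ξ => by
        rw [R_congr m (fun j hj => f1_ne ξ (fun h => by
          have := congrArg Fin.val (Sum.inr.inj (Sum.inr.inj (Sum.inr.inj (Sum.inr.inj
            (Sum.inr.inj (Sum.inr.inj h))))))
          simp at this; omega))]) (fun ξ => by
        simp only [fo, wo, hk, exists_true_left, f1_self]
        cases ξ (po ⟨_, hk⟩) <;> cases z (po ⟨_, hk⟩) <;> norm_num),
      sum_add_distrib, sum_R m (by omega)]
    push_cast; ring

def x0 (ξ : Pos π → Bool) : Pos π → Bool :=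
  mkS true (fun _ => false) (fun k => ξ (pa k)) (fun k => ξ (pb k)) (fun _ => false)
    (fun k => ξ (pe k)) (fun k => ξ (po k))

noncomputable def BB (π : Par) : ℝ :=
  12 * (As π).card * (As π).card + 6 * π.K ^ 2 / π.r0 * 6 + YY π * (l0 π * (As π).card) ^ 6
    + 6 * π.K ^ 2 * π.M + 6 * (40 * π.N + 21) + ZZ π
    + 96 * YY π * (1 / 2) ^ π.b * π.N + YY π * 4 ^ π.M * (3 / 4) ^ π.K

theorem ub (G : Good π) : UB (Pos π) (BB π) := by
  refine ⟨fun f => avg univ (fun ξ => f (x0 ξ)), St, IsExp.avg univ_nonempty _, isExp_St G,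
    fun z m => ?_⟩
  have hY := YY_pos G
  have hZ := ZZ_nonneg G
  have hr0 := G.r0
  have hl : 0 ≤ l0 π := by unfold l0; positivity
  set C0 : ℝ := 12 * (As π).card * (As π).card + 6 * π.K ^ 2 / π.r0 * 6
    + YY π * (l0 π * (As π).card) ^ 6 + 6 * π.K ^ 2 * π.M + 6 * (40 * π.N + 21) + ZZ π with hC0
  have hC : 0 ≤ C0 := by positivity
  have key : ∀ ξ, hh z m (x0 ξ) ≤ C0 + 96 * YY π * (1 / 2) ^ π.b * R z ξ (π.N - (π.b + 1))
      + YY π * 4 ^ π.M * (1 / 2) ^ cnt z (Es π) ξ := by
    intro ξ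
    have hR := R_ge (z := z) ξ (π.N - (π.b + 1))
    have h1 : cnt z (Es π) (x0 ξ) = cnt z (Es π) ξ := cnt_congr z fun j hj => by
      rcases j with ⟨⟨⟩⟩ | k | k | k | k | k | k <;> simp [Es] at hj
      rfl
    by_cases h : 2 * π.M ≤ cnt z (Es π) ξ
    · have h2 : Pre z 0 (x0 ξ) :=
        ⟨⟨fun ⟨k, hk⟩ => by simp [x0] at hk, rfl⟩, fun k => by simp [x0], Nat.zero_le _,
          by rw [h1]; simpa using h⟩
      refine (layer6 G m 0 _ h2 (by norm_num)).trans ?_
      have h3 : (cnt z (As π) (x0 ξ) : ℝ) ≤ (As π).card := by exact_mod_cast cnt_le z _ _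
      have h4 := gw_le hl (cnt_le z (As π) (x0 ξ)) 6
      have h5 : ((π.M - 6 : ℕ) : ℝ) ≤ π.M := by exact_mod_cast Nat.sub_le _ _
      have h6 : 0 ≤ YY π * 4 ^ π.M * (1 / 2) ^ cnt z (Es π) ξ := by positivity
      rw [G6, B4_congr G (x := x0 ξ) (y := ξ) (fun k _ => rfl), B4, hC0]
      have h7 := mul_le_mul_of_nonneg_left h3 (show (0 : ℝ) ≤ 12 * (As π).card by positivity)
      have h8 := mul_le_mul_of_nonneg_left h4 hY.le
      have h9 := mul_le_mul_of_nonneg_left h5 (show (0 : ℝ) ≤ 6 * π.K ^ 2 by positivity)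
      simp only [Nat.sub_zero, Nat.cast_ofNat]
      linarith
    · refine (le_Y G _ _).trans ?_
      have h2 : ((1 : ℝ) / 2) ^ (2 * π.M) ≤ (1 / 2) ^ cnt z (Es π) ξ :=
        pow_le_pow_of_le_one (by norm_num) (by norm_num) (by omega)
      have h3 : (4 : ℝ) ^ π.M * (1 / 2) ^ (2 * π.M) = 1 := by
        rw [pow_mul, ← mul_pow]; norm_num
      have h4 : 0 ≤ 96 * YY π * (1 / 2) ^ π.b * R z ξ (π.N - (π.b + 1)) := by positivity
      have h5 := mul_le_mul_of_nonneg_left h2 (show (0 : ℝ) ≤ YY π * 4 ^ π.M by positivity)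
      rw [mul_assoc, h3] at h5
      linarith
  have hc : (0 : ℝ) < (univ : Finset (Pos π → Bool)).card := by
    exact_mod_cast card_pos.2 univ_nonempty
  show avg univ (fun ξ => hh z m (x0 ξ)) ≤ _
  rw [avg, div_le_iff₀ hc]
  refine (sum_le_sum fun ξ _ => key ξ).trans ?_
  rw [sum_add_distrib, sum_add_distrib, ← mul_sum, ← mul_sum, sum_R _ (Nat.sub_le _ _), sum_cnt,
    card_Es, BB, ← hC0]
  simp only [sum_const, nsmul_eq_mul, mul_one]
  have h1 : ((π.N - (π.b + 1) : ℕ) : ℝ) + 1 ≤ π.N := by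
    have := G.hb
    exact_mod_cast (by omega : π.N - (π.b + 1) + 1 ≤ π.N)
  have h2 := mul_le_mul_of_nonneg_left (mul_le_mul_of_nonneg_right h1 hc.le)
    (show (0 : ℝ) ≤ 96 * YY π * (1 / 2) ^ π.b by positivity)
  linarith

end Pool.Agent.H.MP_f3ccbb_lc
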