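import Pool.Agent.H.MP_f3ccbb_lc.E

set_option autoImplicit false

namespace Pool.Agent.H.MP_f3ccbb_lc

open Finset Filter Topology

lemma code (P N : ℕ) (h : (N + 1) * (N + 1) ≤ 2 ^ P) (s0 : ℕ × ℕ) :
    ∃ (enc : ℕ × ℕ → Fin P → Bool) (dec : (Fin P → Bool) → ℕ × ℕ),
      (∀ i β, i ≤ N → β ≤ N → dec (enc (i, β)) = (i, β)) ∧ enc s0 = fun _ => false := by
  obtain ⟨φ⟩ : Nonempty (Fin (N + 1) × Fin (N + 1) ↪ (Fin P → Bool)) :=
    Function.Embedding.nonempty_of_card_le (by simpa using h)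
  let ψ : ℕ × ℕ → Fin P → Bool := fun s => φ (Fin.ofNat (N + 1) s.1, Fin.ofNat (N + 1) s.2)
  refine ⟨fun s p => xor (ψ s p) (ψ s0 p), fun g =>
    ((Function.invFun φ (fun p => xor (g p) (ψ s0 p))).1.val,
     (Function.invFun φ (fun p => xor (g p) (ψ s0 p))).2.val), fun i β hi hβ => ?_, by simp⟩
  have h1 : (fun p => xor (xor (ψ (i, β) p) (ψ s0 p)) (ψ s0 p))
      = φ (Fin.ofNat (N + 1) i, Fin.ofNat (N + 1) β) := by
    funext p; simp [ψ]
  simp only [h1, Function.leftInverse_invFun φ.injective _, Fin.ofNat]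
  rw [Nat.mod_eq_of_lt (by omega), Nat.mod_eq_of_lt (by omega)]

lemma big : ∃ N0 : ℕ, ∀ n : ℕ, N0 ≤ n →
    10 ^ 8 * (208 * ((Nat.log 2 n + 1 : ℕ) : ℝ)) ^ 24 ≤ n := by
  have h := tendsto_pow_const_div_const_pow_of_one_lt 24 (r := 2) (by norm_num)
  have h1 := (h.eventually (gt_mem_nhds (show (0 : ℝ) < 1 / (2 * 10 ^ 8 * 208 ^ 24) by positivity)))
  obtain ⟨L0, hL⟩ := eventually_atTop.1 h1
  refine ⟨2 ^ L0, fun n hn => ?_⟩
  have hn0 : n ≠ 0 := by have := Nat.two_pow_pos L0; omega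
  have h2 : L0 ≤ Nat.log 2 n := Nat.le_log_of_pow_le (by norm_num) hn
  have h3 := hL (Nat.log 2 n + 1) (by omega)
  have h4 : (2 : ℝ) ^ (Nat.log 2 n) ≤ n := by exact_mod_cast Nat.pow_log_le_self 2 hn0
  rw [div_lt_div_iff₀ (by positivity) (by positivity), pow_succ (2 : ℝ) (Nat.log 2 n)] at h3
  rw [mul_pow]
  linarith

lemma UB.mono {ι : Type} [Fintype ι] [DecidableEq ι] {B B' : ℝ} (h : UB ι B) (hB : B ≤ B') :
    UB ι B' := by
  obtain ⟨E0, St, h1, h2, h3⟩ := h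
  exact ⟨E0, St, h1, h2, fun z m => (h3 z m).trans hB⟩

theorem ub_fin (n L : ℕ) (hL : 1 ≤ L) (h2 : n < 2 ^ L)
    (hbig : 10 ^ 8 * (208 * (L : ℝ)) ^ 24 ≤ n) : UB (Fin n) (421 * n) := by
  have hL' : (1 : ℝ) ≤ L := by exact_mod_cast hL
  set T : ℝ := 208 * L with hT
  have hT1 : 1 ≤ T := by linarith
  have hp : ∀ k, k ≤ 24 → 10 ^ 8 * T ^ k ≤ n := fun k hk =>
    le_trans (mul_le_mul_of_nonneg_left (pow_le_pow_right₀ hT1 hk) (by norm_num)) hbig
  have hn1 : (1 : ℝ) ≤ n := by have := hp 0 (by norm_num); linarith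
  have hn0 : (0 : ℝ) < n := by linarith
  have hLn : 1000 * L ≤ n := by
    have := hp 1 (by norm_num)
    have : (1000 : ℝ) * L ≤ n := by linarith
    exact_mod_cast this
  obtain ⟨enc, dec, hde, he0⟩ := code (2 * L) (n - (67 * L + 147)) (by
    rw [two_mul, pow_add]
    exact Nat.mul_le_mul (by omega) (by omega)) (6 * L + 14 + 1, 6 * L + 14)
  let π : Par := ⟨2 * L, 6 * L + 14, 55 * L + 120, n - (67 * L + 147), enc, dec,
    1 / (28 * (n : ℝ) ^ 4), ((55 * L + 120 : ℕ) : ℝ) ^ 2 / n⟩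
  have hcard : Fintype.card (Pos π) = n := by
    simp [π, Par.M]; omega
  have hnn : nn π = n := by rw [nn, hcard]
  have hq : π.q = 1 / (28 * (n : ℝ) ^ 4) := rfl
  have hr : π.r0 = (π.K : ℝ) ^ 2 / n := rfl
  have hK : (π.K : ℝ) ≤ T := by
    show ((55 * L + 120 : ℕ) : ℝ) ≤ T
    push_cast; linarith
  have hK0 : (0 : ℝ) < π.K := by
    show (0 : ℝ) < ((55 * L + 120 : ℕ) : ℝ)
    positivity
  have hM : (π.M : ℝ) ≤ T := by
    show ((6 + 2 * L + (6 * L + 14) : ℕ) : ℝ) ≤ T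
    push_cast; linarith
  have hF : ((Fs π).card : ℝ) ≤ T := by
    rw [card_Fs]
    show ((1 + 2 * (2 * L) + (6 + 2 * L + (6 * L + 14)) + (55 * L + 120) : ℕ) : ℝ) ≤ T
    push_cast; linarith
  have hA : ((As π).card : ℝ) ≤ T := by
    have h3 : ((As π).card : ℝ) ≤ ((2 * (2 * L) + (6 * L + 14) + 1 : ℕ) : ℝ) := by
      exact_mod_cast card_As π
    push_cast at h3; linarith
  have hN : (π.N : ℝ) ≤ n := by exact_mod_cast Nat.sub_le _ _
  have hn4 : (n : ℝ) ≤ n ^ 4 := le_self_pow₀ hn1 (by norm_num)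
  have hY1 : YY π = 56 * n ^ 5 * (2 * n + 1) := by rw [YY, hnn, hq]; field_simp; ring
  have hY : YY π ≤ 168 * n ^ 6 := by
    rw [hY1]
    have : (n : ℝ) ^ 5 ≤ n ^ 6 := pow_le_pow_right₀ hn1 (by norm_num)
    nlinarith
  have hK2 : (π.K : ℝ) ^ 2 ≤ T ^ 2 := by gcongr
  have G : Good π := by
    refine ⟨by show 0 < 55 * L + 120; omega, by rw [hq]; positivity, ?_, by rw [hr]; positivity, ?_,
      by show 6 * L + 14 + 1 ≤ n - (67 * L + 147); omega, hde, he0, ?_, ?_⟩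
    · rw [hq]; exact one_div_le_one_div_of_le (by norm_num) (by linarith)
    · rw [hr, div_le_iff₀ hn0]
      have := hp 2 (by norm_num)
      nlinarith
    · rw [hnn, hq, one_div_one_div]; linarith
    · have h3 : π.q * XX π = 1 + (1 + 2 * n * (2 * n + 1)) / (14 * n ^ 2) := by
        rw [XX, hY1, hnn, hq]; field_simp; ring
      have h4 : (1 + 2 * n * (2 * n + 1)) / (14 * (n : ℝ) ^ 2) ≤ 1 := by
        rw [div_le_one (by positivity)]; nlinarith
      linarith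
  refine ((ub G).transfer (Fintype.equivFinOfCardEq hcard)).mono ?_
  have hY0 := (YY_pos G).le
  have hT0 : 0 ≤ T := by linarith
  have t1 : 12 * ((As π).card : ℝ) * (As π).card ≤ n := by
    have := hp 2 (by norm_num)
    have : ((As π).card : ℝ) * (As π).card ≤ T * T := by gcongr
    nlinarith
  have t2 : 6 * (π.K : ℝ) ^ 2 / π.r0 * 6 = 36 * n := by rw [hr]; field_simp; ring
  have t3 : YY π * (l0 π * (As π).card) ^ 6 ≤ n := by
    have h3 : l0 π * (As π).card ≤ 2 * T ^ 4 / n := by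
      rw [l0, hr, show 2 * T ^ 4 / n = 2 * T * (T ^ 2 / n) * T by ring]
      gcongr
    have h4 : 0 ≤ l0 π * (As π).card := by
      have := G.r0; unfold l0; positivity
    calc YY π * (l0 π * (As π).card) ^ 6 ≤ 168 * n ^ 6 * (2 * T ^ 4 / n) ^ 6 := by gcongr
      _ = 10752 * T ^ 24 := by field_simp; ring
      _ ≤ n := by have := hp 24 le_rfl; have : 0 ≤ T ^ 24 := by positivity
                  linarith
  have t4 : 6 * (π.K : ℝ) ^ 2 * π.M ≤ n := by
    have := hp 3 (by norm_num)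
    have h3 : 6 * (π.K : ℝ) ^ 2 * π.M ≤ 6 * T ^ 2 * T := by gcongr
    have : 0 ≤ T ^ 3 := by positivity
    nlinarith
  have t5 : ZZ π ≤ 14 * n := by
    have h3 : l3 π * (Fs π).card ≤ 6 * T ^ 2 / n := by
      rw [l3, hnn, show 6 * T ^ 2 / n = 6 * T / n * T by ring]
      gcongr
    have h4 : 0 ≤ l3 π * (Fs π).card := by rw [l3, hnn]; positivity
    have h5 : YY π * (l3 π * (Fs π).card) ^ 6 ≤ n :=
      calc YY π * (l3 π * (Fs π).card) ^ 6 ≤ 168 * n ^ 6 * (6 * T ^ 2 / n) ^ 6 := by gcongr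
        _ = 7838208 * T ^ 12 := by field_simp; ring
        _ ≤ n := by have := hp 12 (by norm_num); have : 0 ≤ T ^ 12 := by positivity
                    linarith
    have := hp 2 (by norm_num)
    have : ((Fs π).card : ℝ) * (Fs π).card ≤ T * T := by gcongr
    rw [ZZ, hnn]
    nlinarith
  have h2' : (n : ℝ) ^ 6 ≤ (2 ^ L) ^ 6 := by
    have : (n : ℝ) ≤ 2 ^ L := by exact_mod_cast h2.le
    gcongr
  have hW : YY π / (2 ^ L) ^ 6 ≤ 168 := by
    rw [div_le_iff₀ (by positivity)]; linarith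
  have t6 : 96 * YY π * (1 / 2) ^ π.b * π.N ≤ n := by
    have h3 : 96 * YY π * (1 / 2) ^ π.b = 96 / 16384 * (YY π / (2 ^ L) ^ 6) := by
      show 96 * YY π * (1 / 2) ^ (6 * L + 14) = _
      rw [pow_add, pow_mul', one_div_pow, one_div_pow]
      field_simp; norm_num
    rw [h3]
    have h4 : 96 / 16384 * (YY π / (2 ^ L) ^ 6) ≤ 1 := by linarith
    have h5 : (0 : ℝ) ≤ π.N := Nat.cast_nonneg _
    have h6 := mul_le_mul_of_nonneg_right h4 h5
    linarith
  have t7 : YY π * 4 ^ π.M * (3 / 4) ^ π.K ≤ n := by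
    have h3 : ((3 : ℝ) / 4) ^ π.K ≤ (1 / 4) ^ (11 * L + 24) := by
      rw [show π.K = 5 * (11 * L + 24) by show 55 * L + 120 = _; ring, pow_mul]
      gcongr; norm_num
    have h4 : YY π * 4 ^ π.M * (1 / 4) ^ (11 * L + 24) = 1 / 256 * (YY π / (2 ^ L) ^ 6) := by
      rw [show 11 * L + 24 = π.M + (3 * L + 4) by show _ = 6 + 2 * L + (6 * L + 14) + _; ring]
      generalize π.M = a
      rw [one_div_pow, pow_add, pow_add, ← pow_mul (2 : ℝ), show L * 6 = 2 * (3 * L) by ring,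
        pow_mul (2 : ℝ)]
      field_simp; norm_num; ring
    have h5 : YY π * 4 ^ π.M * (3 / 4) ^ π.K ≤ YY π * 4 ^ π.M * (1 / 4) ^ (11 * L + 24) := by
      gcongr
    linarith
  rw [BB]
  linarith

end Pool.Agent.H.MP_f3ccbb_lc
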